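import Pool.Agent.Lib.MP_f146a9_al.Ops

/-!
MP_f146a9_al. The braid relations for the operators, and the representation of the Artin group.
-/

namespace Pool.Agent.Lib.MP_f146a9_al

open CoxeterSystem Pool.Agent.Lib.MP_529e02_al

section alt

variable {G : Type*}

theorem altProd_mul [Monoid G] (a b : G) (n m : ℕ) :
    altProd a b (n + m) = altProd a b n * (if Even n then altProd a b m else altProd b a m) := by
  induction n generalizing a b with
  | zero => simp [altProd]
  | succ n ih =>
    rw [Nat.add_right_comm, altProd, ih, altProd, mul_assoc]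
    by_cases h : Even n
    · simp [h, Nat.even_add_one]
    · simp [h, Nat.even_add_one]

theorem altProd_dvd [Monoid G] {a b : G} {n : ℕ} (h : altProd a b n = altProd b a n) {m : ℕ}
    (hm : n ∣ m) : altProd a b m = altProd b a m := by
  obtain ⟨k, rfl⟩ := hm
  induction k with
  | zero => simp [altProd]
  | succ k ih =>
    rw [Nat.mul_succ, altProd_mul, altProd_mul, ih, h, ite_self]

theorem altProd_invol [Group G] {a b : G} (ha : a * a = 1) (hb : b * b = 1) (n : ℕ) :
    altProd a b n * (altProd b a n)⁻¹ = (a * b) ^ n := by
  induction n generalizing a b with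
  | zero => simp [altProd]
  | succ n ih =>
    have hb' : b⁻¹ = b := inv_eq_of_mul_eq_one_left hb
    rw [altProd, altProd, mul_inv_rev, hb']
    have h1 := ih hb ha
    calc a * altProd b a n * ((altProd a b n)⁻¹ * b) = a * (altProd b a n * (altProd a b n)⁻¹) * b := by
          group
      _ = a * (b * a) ^ n * b := by rw [h1]
      _ = (a * b) ^ (n + 1) := by
          clear h1 ih hb'
          induction n with
          | zero => simp
          | succ n ih2 =>
            rw [pow_succ (a * b), ← ih2, pow_succ (b * a)]
            group

theorem map_altProd {G' F : Type*} [Monoid G] [Monoid G'] [FunLike F G G'] [MonoidHomClass F G G'] (f : F)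
    (a b : G) (n : ℕ) : f (altProd a b n) = altProd (f a) (f b) n := by
  induction n generalizing a b with
  | zero => simp [altProd]
  | succ n ih => rw [altProd, map_mul, ih, altProd]

theorem altProd_neg {R : Type*} [Ring R] (a b : R) (n : ℕ) :
    altProd (-a) (-b) n = ((-1 : ℤ) ^ n) • altProd a b n := by
  induction n generalizing a b with
  | zero => simp [altProd]
  | succ n ih =>
    rw [altProd, ih, altProd, pow_succ, neg_mul, mul_smul_comm]
    simp

/-- the alternating list -/
def altList {B : Type*} (i j : B) : ℕ → List B
  | 0 => []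
  | n + 1 => i :: altList j i n

end alt

variable {B W : Type*} [Group W] {M : CoxeterMatrix B} (cs : CoxeterSystem M W)

theorem length_altList (i j : B) (n : ℕ) : (altList i j n).length = n := by
  induction n generalizing i j with
  | zero => rfl
  | succ n ih => rw [altList, List.length_cons, ih]

theorem wordProd_altList (i j : B) (n : ℕ) :
    cs.wordProd (altList i j n) = altProd (cs.simple i) (cs.simple j) n := by
  induction n generalizing i j with
  | zero => simp [altList, altProd]
  | succ n ih => rw [altList, wordProd_cons, ih, altProd]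

theorem leftInvSeq_altList (i j : B) (n : ℕ) : cs.leftInvSeq (altList i j n) =
    (List.range n).map fun k => (cs.simple i * cs.simple j) ^ k * cs.simple i := by
  induction n generalizing i j with
  | zero => simp [altList]
  | succ n ih =>
    rw [altList, leftInvSeq, ih, List.range_succ_eq_map, List.map_cons, pow_zero, one_mul, List.map_map,
      List.map_map]
    congr 1
    apply List.map_congr_left
    intro k hk
    clear hk
    simp only [Function.comp_apply, MulAut.conj_apply, inv_simple, Nat.succ_eq_add_one]
    induction k with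
    | zero => simp
    | succ k ih2 =>
      have h1 : cs.simple i * ((cs.simple j * cs.simple i) ^ k * cs.simple j) =
          (cs.simple i * cs.simple j) ^ (k + 1) := by
        have h2 := congrArg (· * cs.simple i) ih2
        simpa [mul_assoc] using h2
      rw [pow_succ (cs.simple i * cs.simple j) (k + 1), ← h1, pow_succ (cs.simple j * cs.simple i)]
      simp only [mul_assoc]

/-- a word with distinct reflections is reduced -/
theorem isReduced_of_nodup {ω : List B} (h : (cs.leftInvSeq ω).Nodup) : cs.IsReduced ω := by
  classical
  obtain ⟨ω', h1, h2⟩ := cs.exists_isReduced (cs.wordProd ω)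
  have h3 : cs.leftInvSeq ω ⊆ cs.leftInvSeq ω' := by
    intro t ht
    have h4 : side cs (cs.wordProd ω) t = 1 := by
      rw [side_word, List.count_eq_one_of_mem h ht]
      simp
    rw [h2, side_word] at h4
    by_contra h5
    rw [List.count_eq_zero_of_not_mem h5] at h4
    simp at h4
  have h4 := (h.subperm h3).length_le
  rw [length_leftInvSeq, length_leftInvSeq] at h4
  have h5 : cs.length (cs.wordProd ω) = ω'.length := by rw [h2]; exact h1.eq
  have h6 := cs.length_wordProd_le ω
  change cs.length _ = _
  omega

theorem length_altProd (i j : B) {n : ℕ} (hn : n ≤ orderOf (cs.simple i * cs.simple j)) :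
    cs.length (altProd (cs.simple i) (cs.simple j) n) = n := by
  have h : cs.IsReduced (altList i j n) := by
    apply isReduced_of_nodup
    rw [leftInvSeq_altList]
    apply List.Nodup.map_on _ List.nodup_range
    intro a ha b hb hab
    rw [List.mem_range] at ha hb
    exact pow_injOn_Iio_orderOf (Set.mem_Iio.2 (by omega)) (Set.mem_Iio.2 (by omega)) (mul_right_cancel hab)
  rw [← wordProd_altList, h.eq, length_altList]

/-- the generator of the Hecke algebra -/
noncomputable def opT (i : B) : Module.End ℤ (W →₀ ℤ) := opL cs i - 1

theorem opT_single {i : B} {w : W} (h : cs.length (cs.simple i * w) = cs.length w + 1) :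
    opT cs i (Finsupp.single w 1) = Finsupp.single (cs.simple i * w) 1 := by
  have h1 : eps cs i w = 1 := by
    unfold eps
    rw [if_neg (by omega)]
  change opL cs i (Finsupp.single w 1) - Finsupp.single w 1 = _
  rw [opL_single, h1, one_smul, add_sub_cancel_left]

theorem opR_sub_single {j : B} {w : W} (h : cs.length (w * cs.simple j) = cs.length w + 1) :
    opR cs j (Finsupp.single w 1) - Finsupp.single w 1 = Finsupp.single (w * cs.simple j) 1 := by
  have h1 : eps cs j w⁻¹ = 1 := by
    unfold eps
    rw [if_neg]
    have h2 : cs.simple j * w⁻¹ = (w * cs.simple j)⁻¹ := by rw [mul_inv_rev, inv_simple]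
    rw [h2, length_inv, length_inv]
    omega
  rw [opR_single, h1, one_smul, add_sub_cancel_left]

theorem eq_zero_of_comm {f : Module.End ℤ (W →₀ ℤ)} (hf : ∀ j, f * opR cs j = opR cs j * f)
    (h1 : f (Finsupp.single 1 1) = 0) : f = 0 := by
  apply end_ext
  have key : ∀ n : ℕ, ∀ w : W, cs.length w = n → f (Finsupp.single w 1) = 0 := by
    intro n
    induction n with
    | zero =>
      intro w hw
      rw [length_eq_zero_iff] at hw
      rw [hw, h1]
    | succ n ih =>
      intro w hw
      have hne : w ≠ 1 := by
        rintro rfl
        simp at hw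
      obtain ⟨j, hj⟩ := cs.exists_rightDescent_of_ne_one hne
      rw [isRightDescent_iff] at hj
      have h2 : cs.length (w * cs.simple j) = n := by omega
      have h3 := opR_sub_single cs (j := j) (w := w * cs.simple j)
        (by rw [simple_mul_simple_cancel_right]; omega)
      rw [simple_mul_simple_cancel_right] at h3
      rw [← h3, map_sub, ih _ h2, sub_zero, ← Module.End.mul_apply, hf, Module.End.mul_apply, ih _ h2,
        map_zero]
  intro w
  rw [key _ w rfl]
  rfl

theorem altProd_opT_single (i j : B) {n : ℕ} (hn : n ≤ orderOf (cs.simple i * cs.simple j)) :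
    altProd (opT cs i) (opT cs j) n (Finsupp.single 1 1) =
      Finsupp.single (altProd (cs.simple i) (cs.simple j) n) 1 := by
  induction n generalizing i j with
  | zero => simp [altProd]
  | succ n ih =>
    have hij : orderOf (cs.simple j * cs.simple i) = orderOf (cs.simple i * cs.simple j) := by
      rw [← orderOf_inv (cs.simple i * cs.simple j), mul_inv_rev, inv_simple, inv_simple]
    rw [altProd, Module.End.mul_apply, ih j i (by omega), opT_single, altProd]
    rw [length_altProd cs j i (by omega)]
    exact length_altProd cs i j hn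

theorem altProd_comm {R : Type*} [Monoid R] {a b c : R} (ha : a * c = c * a) (hb : b * c = c * b) (n : ℕ) :
    altProd a b n * c = c * altProd a b n := by
  induction n generalizing a b with
  | zero => simp [altProd]
  | succ n ih => rw [altProd, mul_assoc, ih hb ha, ← mul_assoc, ha, mul_assoc]

theorem opT_comm (i j : B) : opT cs i * opR cs j = opR cs j * opT cs i := by
  rw [opT, sub_mul, mul_sub, opL_comm_opR, one_mul, mul_one]

theorem braid_opT (i j : B) :
    altProd (opT cs i) (opT cs j) (M i j) = altProd (opT cs j) (opT cs i) (M i j) := by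
  have h1 : (cs.simple i * cs.simple j) ^ M i j = 1 := cs.simple_mul_simple_pow i j
  have hij : orderOf (cs.simple j * cs.simple i) = orderOf (cs.simple i * cs.simple j) := by
    rw [← orderOf_inv (cs.simple i * cs.simple j), mul_inv_rev, inv_simple, inv_simple]
  apply altProd_dvd _ (orderOf_dvd_of_pow_eq_one h1)
  rw [← sub_eq_zero]
  apply eq_zero_of_comm cs
  · intro k
    rw [sub_mul, mul_sub, altProd_comm (opT_comm cs i k) (opT_comm cs j k),
      altProd_comm (opT_comm cs j k) (opT_comm cs i k)]
  · rw [LinearMap.sub_apply, altProd_opT_single cs i j le_rfl, altProd_opT_single cs j i hij.ge,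
      sub_eq_zero]
    congr 1
    have h2 := altProd_invol (cs.simple_mul_simple_self i) (cs.simple_mul_simple_self j)
      (orderOf (cs.simple i * cs.simple j))
    rw [pow_orderOf_eq_one, mul_inv_eq_one] at h2
    exact h2

/-- the image of a generator: `1 - N` with `N ^ 2 = 0` -/
noncomputable def unitA (i : B) : (Module.End ℤ (W →₀ ℤ))ˣ where
  val := 1 - opL cs i
  inv := 1 + opL cs i
  val_inv := by
    rw [sub_mul, mul_add, mul_add, opL_sq]
    simp
  inv_val := by
    rw [add_mul, mul_sub, mul_sub, opL_sq]
    simp

theorem unitA_zpow (i : B) (k : ℤ) :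
    ((unitA cs i ^ k : (Module.End ℤ (W →₀ ℤ))ˣ) : Module.End ℤ (W →₀ ℤ)) = 1 - k • opL cs i := by
  induction k using Int.induction_on with
  | zero => simp
  | succ n ih =>
    rw [zpow_add_one, Units.val_mul, ih]
    change (1 - (n : ℤ) • (opL cs i : Module.End ℤ (W →₀ ℤ))) * (1 - opL cs i) = _
    rw [sub_mul, mul_sub, smul_mul_assoc, mul_sub, opL_sq, add_smul, one_smul]
    simp
    abel
  | pred n ih =>
    rw [zpow_sub_one, Units.val_mul, ih]
    change (1 - (-(n : ℤ)) • (opL cs i : Module.End ℤ (W →₀ ℤ))) * (1 + opL cs i) = _
    rw [sub_mul, mul_add, smul_mul_assoc, mul_add, opL_sq, sub_smul, one_smul]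
    simp
    abel

/-- the representation of the Artin group -/
noncomputable def rep : ArtinGroup M →* (Module.End ℤ (W →₀ ℤ))ˣ :=
  PresentedGroup.toGroup (f := unitA cs) (by
    rintro r ⟨i, j, _, rfl⟩
    rw [map_mul, map_inv, map_altProd, map_altProd, FreeGroup.lift_apply_of, FreeGroup.lift_apply_of,
      mul_inv_eq_one]
    apply Units.ext
    have h1 : ∀ a b : (Module.End ℤ (W →₀ ℤ))ˣ, ∀ n, ((altProd a b n : (Module.End ℤ (W →₀ ℤ))ˣ) :
        Module.End ℤ (W →₀ ℤ)) = altProd (a : Module.End ℤ (W →₀ ℤ)) (b : Module.End ℤ (W →₀ ℤ)) n :=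
      fun a b n => map_altProd (Units.coeHom (Module.End ℤ (W →₀ ℤ))) a b n
    have h2 : ∀ i, ((unitA cs i : (Module.End ℤ (W →₀ ℤ))ˣ) : Module.End ℤ (W →₀ ℤ)) = -opT cs i := by
      intro i
      rw [opT, neg_sub]
      rfl
    rw [h1, h1, h2, h2, altProd_neg, altProd_neg, braid_opT cs i j])

theorem rep_of (i : B) : rep cs (PresentedGroup.of i) = unitA cs i := by
  rw [rep, PresentedGroup.toGroup.of]

end Pool.Agent.Lib.MP_f146a9_al
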