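import Pool.Agent.Lib.MP_f146a9_al.Lead

/-!
MP_f146a9_al. Double cosets of standard parabolic subgroups.
-/

namespace Pool.Agent.Lib.MP_f146a9_al

open CoxeterSystem Pool.Agent.Lib.MP_529e02_al

variable {B W : Type*} [Group W] {M : CoxeterMatrix B} (cs : CoxeterSystem M W)

/-- the vectors of two products of powers along reduced words whose first letters agree -/
theorem cons_unique {i i' : B} (hi : cs.simple i = cs.simple i') {k k' : ℤ} {l l' : List (B × ℤ)}
    (hl' : ∀ p ∈ l', p.2 ≠ 0)
    (hr : cs.IsReduced (letters ((i, k) :: l))) (hr' : cs.IsReduced (letters ((i', k') :: l')))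
    (hw : cs.wordProd (letters l) = cs.wordProd (letters l'))
    (h : vec cs (artinWord M ((i, k) :: l)) = vec cs (artinWord M ((i', k') :: l'))) :
    k = k' ∧ vec cs (artinWord M l) = vec cs (artinWord M l') := by
  have hrl : cs.IsReduced (letters l) := reduced_tail cs (i := i) hr
  have hrl' : cs.IsReduced (letters l') := reduced_tail cs (i := i') hr'
  have key : ∀ (i : B) (k : ℤ) (l : List (B × ℤ)), cs.IsReduced (letters ((i, k) :: l)) →
      vec cs (artinWord M ((i, k) :: l)) (cs.wordProd (letters l)) =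
        (1 - k) * ((-1) ^ l.length * (l.map Prod.snd).prod) ∧
      vec cs (artinWord M ((i, k) :: l)) (cs.simple i * cs.wordProd (letters l)) =
        - k * ((-1) ^ l.length * (l.map Prod.snd).prod) := by
    intro i k l hr
    have hr1 : cs.IsReduced (i :: letters l) := hr
    obtain ⟨h1, h2⟩ := vec_lead cs l (reduced_tail cs hr1)
    have hlen : (letters l).length = l.length := by simp [letters]
    have hl1 : cs.length (cs.wordProd (letters l)) = l.length := by
      rw [(reduced_tail cs hr1).eq, hlen]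
    have hl2 : cs.length (cs.simple i * cs.wordProd (letters l)) = l.length + 1 := by
      rw [← wordProd_cons, hr1.eq, List.length_cons, hlen]
    have h3 : vec cs (artinWord M l) (cs.simple i * cs.wordProd (letters l)) = 0 := by
      apply h2 _ (by omega)
      intro h
      rw [h] at hl2
      omega
    have h4 : eps cs i (cs.wordProd (letters l)) = 1 := by
      unfold eps
      rw [if_neg (by omega)]
    rw [vec_cons, vec_cons, simple_mul_simple_cancel_left, eps_simple_mul, h3, h4, h1]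
    constructor <;> ring
  obtain ⟨e1, f1⟩ := key i k l hr
  obtain ⟨e2, f2⟩ := key i' k' l' hr'
  rw [← h, ← hw, e1] at e2
  rw [← h, ← hw, ← hi, f1] at f2
  have hlen : l.length = l'.length := by
    have h1 : cs.length (cs.wordProd (letters l)) = l.length := by
      rw [hrl.eq]; simp [letters]
    have h2 : cs.length (cs.wordProd (letters l')) = l'.length := by
      rw [hrl'.eq]; simp [letters]
    rw [← h1, ← h2, hw]
  have e3 : (-1) ^ l.length * (l.map Prod.snd).prod = (-1) ^ l'.length * (l'.map Prod.snd).prod := by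
    linear_combination e2 - f2
  have hne : (-1) ^ l'.length * (l'.map Prod.snd).prod ≠ 0 := by
    apply mul_ne_zero (pow_ne_zero _ (by norm_num))
    apply List.prod_ne_zero
    intro hmem
    obtain ⟨p, hp, hp2⟩ := List.mem_map.1 hmem
    exact hl' p hp hp2
  have hkk : k = k' := by
    rw [e3] at f2
    have := mul_right_cancel₀ hne f2
    omega
  subst hkk
  refine ⟨rfl, ?_⟩
  have hop : opL cs i = opL cs i' := by
    unfold opL eps
    rw [hi]
  have hun : unitA cs i = unitA cs i' := by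
    apply Units.ext
    change (1 - opL cs i : Module.End ℤ (W →₀ ℤ)) = 1 - opL cs i'
    rw [hop]
  have h5 : ∀ (i : B) (l : List (B × ℤ)), vec cs (artinWord M ((i, k) :: l)) =
      ((unitA cs i ^ k : (Module.End ℤ (W →₀ ℤ))ˣ) : Module.End ℤ (W →₀ ℤ)) (vec cs (artinWord M l)) := by
    intro i l
    rw [vec, artinWord_cons, map_mul, map_zpow, rep_of, Units.val_mul, Module.End.mul_apply]
    rfl
  rw [h5, h5, ← hun] at h
  have h6 := congrArg (fun x => (((unitA cs i ^ k)⁻¹ : (Module.End ℤ (W →₀ ℤ))ˣ) :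
    Module.End ℤ (W →₀ ℤ)) x) h
  simp only [← Module.End.mul_apply, ← Units.val_mul, inv_mul_cancel] at h6
  exact h6

/-- the exponents along a fixed reduced word are determined by the product -/
theorem exponents_unique' {l l' : List (B × ℤ)} (hl' : ∀ p ∈ l', p.2 ≠ 0)
    (hr : cs.IsReduced (letters l)) (hr' : cs.IsReduced (letters l'))
    (hll : (letters l).map cs.simple = (letters l').map cs.simple)
    (h : vec cs (artinWord M l) = vec cs (artinWord M l')) : l.map Prod.snd = l'.map Prod.snd := by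
  induction l generalizing l' with
  | nil =>
    have : l' = [] := by simpa [letters] using hll
    rw [this]
  | cons p l ih =>
    cases l' with
    | nil => simp [letters] at hll
    | cons p' l' =>
      obtain ⟨i, k⟩ := p
      obtain ⟨i', k'⟩ := p'
      have hi : cs.simple i = cs.simple i' ∧ (letters l).map cs.simple = (letters l').map cs.simple := by
        simpa [letters] using hll
      obtain ⟨hi, hll'⟩ := hi
      have hw : cs.wordProd (letters l) = cs.wordProd (letters l') := by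
        unfold wordProd
        rw [hll']
      obtain ⟨h1, h2⟩ := cons_unique cs hi (fun p hp => hl' p (List.mem_cons_of_mem _ hp)) hr hr' hw h
      rw [List.map_cons, List.map_cons, ih (fun p hp => hl' p (List.mem_cons_of_mem _ hp))
        (reduced_tail cs (i := i) hr) (reduced_tail cs (i := i') hr') hll' h2]
      congr 1

/-- the exponents along a fixed reduced word are determined by the product -/
theorem exponents_unique {l l' : List (B × ℤ)} (hl' : ∀ p ∈ l', p.2 ≠ 0)
    (hr : cs.IsReduced (letters l)) (hll : letters l = letters l')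
    (h : artinWord M l = artinWord M l') : l = l' := by
  have h1 := exponents_unique' cs hl' hr (by rw [← hll]; exact hr) (by rw [hll]) (by rw [h])
  have h2 : ∀ l : List (B × ℤ), l = (letters l).zip (l.map Prod.snd) := by
    intro l
    induction l with
    | nil => rfl
    | cons p l ih =>
      change p :: l = (p.1, p.2) :: (letters l).zip (l.map Prod.snd)
      rw [← ih]
  rw [h2 l, h2 l', h1, hll]

/-- a left parabolic element preserves the vectors which vanish on a left invariant set -/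
theorem rep_vanish {T : Set B} {h : ArtinGroup M} (hh : h ∈ Apar M T) {S : Set W}
    (hS : ∀ y ∈ S, ∀ i ∈ T, cs.simple i * y ∈ S) : ∀ x : W →₀ ℤ, (∀ y ∈ S, x y = 0) →
      (∀ y ∈ S, ((rep cs h : (Module.End ℤ (W →₀ ℤ))ˣ) : Module.End ℤ (W →₀ ℤ)) x y = 0) ∧
      ∀ y ∈ S, (((rep cs h)⁻¹ : (Module.End ℤ (W →₀ ℤ))ˣ) : Module.End ℤ (W →₀ ℤ)) x y = 0 := by
  have hop : ∀ i ∈ T, ∀ x : W →₀ ℤ, (∀ y ∈ S, x y = 0) → ∀ y ∈ S, opL cs i x y = 0 := by
    intro i hi x hx y hy
    rw [opL_apply, hx y hy, hx _ (hS y hy i hi)]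
    simp
  induction hh using Subgroup.closure_induction with
  | mem g hg =>
    obtain ⟨i, hi, rfl⟩ := hg
    intro x hx
    constructor
    · intro y hy
      change ((rep cs (PresentedGroup.of i) : (Module.End ℤ (W →₀ ℤ))ˣ) : Module.End ℤ (W →₀ ℤ)) x y = 0
      rw [rep_of]
      change (x - opL cs i x) y = 0
      rw [Finsupp.sub_apply, hx y hy, hop i hi x hx y hy, sub_zero]
    · intro y hy
      change (((rep cs (PresentedGroup.of i))⁻¹ : (Module.End ℤ (W →₀ ℤ))ˣ) :
        Module.End ℤ (W →₀ ℤ)) x y = 0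
      rw [rep_of]
      change (x + opL cs i x) y = 0
      rw [Finsupp.add_apply, hx y hy, hop i hi x hx y hy, add_zero]
  | one =>
    intro x hx
    rw [map_one, inv_one]
    exact ⟨hx, hx⟩
  | mul g g' _ _ ih ih' =>
    intro x hx
    rw [map_mul, mul_inv_rev, Units.val_mul, Units.val_mul]
    exact ⟨(ih _ (ih' x hx).1).1, (ih' _ (ih x hx).2).2⟩
  | inv g _ ih =>
    intro x hx
    rw [map_inv, inv_inv]
    exact ⟨(ih x hx).2, (ih x hx).1⟩

theorem opR_apply (j : B) (x : W →₀ ℤ) (v : W) :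
    opR cs j x v = eps cs j v⁻¹ * (x v - x (v * cs.simple j)) := by
  induction x using Finsupp.induction_linear with
  | zero => simp
  | add f g hf hg => rw [map_add, Finsupp.add_apply, hf, hg, Finsupp.add_apply, Finsupp.add_apply]; ring
  | single w a =>
    classical
    have h1 : Finsupp.single w a = a • Finsupp.single w (1 : ℤ) := by simp
    rw [h1, map_smul, opR_single]
    simp only [Finsupp.smul_apply, Finsupp.add_apply, Finsupp.single_apply, smul_eq_mul]
    have h2 : (w * cs.simple j = v) ↔ (w = v * cs.simple j) := by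
      constructor
      · rintro rfl; simp
      · rintro rfl; simp
    rw [if_congr h2 rfl rfl]
    by_cases h3 : w = v * cs.simple j
    · subst h3
      rw [mul_inv_rev, inv_simple, eps_simple_mul]
      have h4 : v * cs.simple j ≠ v := by
        intro h4
        exact cs.length_mul_simple_ne v j (by rw [h4])
      simp [h4, mul_comm]
    · by_cases h4 : w = v
      · subst h4
        simp [h3, mul_comm]
      · simp [h3, h4]

theorem opR_sq (j : B) : (opR cs j : Module.End ℤ (W →₀ ℤ)) * opR cs j = 0 := by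
  apply end_ext
  intro w
  rw [Module.End.mul_apply, opR_single, map_smul, map_add, opR_single, opR_single,
    simple_mul_simple_cancel_right, mul_inv_rev, inv_simple, eps_simple_mul]
  simp only [neg_smul, LinearMap.zero_apply]
  rw [add_comm (Finsupp.single (w * cs.simple j) 1), add_neg_cancel, smul_zero]

/-- the right unit -/
noncomputable def unitR (j : B) : (Module.End ℤ (W →₀ ℤ))ˣ where
  val := 1 - opR cs j
  inv := 1 + opR cs j
  val_inv := by
    rw [sub_mul, mul_add, mul_add, opR_sq]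
    simp
  inv_val := by
    rw [add_mul, mul_sub, mul_sub, opR_sq]
    simp

theorem unitA_comm_unitR (i j : B) : unitA cs i * unitR cs j = unitR cs j * unitA cs i := by
  apply Units.ext
  change (1 - opL cs i : Module.End ℤ (W →₀ ℤ)) * (1 - opR cs j) = (1 - opR cs j) * (1 - opL cs i)
  rw [sub_mul, mul_sub, mul_sub, sub_mul, mul_sub, mul_sub, opL_comm_opR]
  simp only [one_mul, mul_one]
  abel

theorem rep_comm {R : (Module.End ℤ (W →₀ ℤ))ˣ} (hR : ∀ i, unitA cs i * R = R * unitA cs i)
    (g : ArtinGroup M) : rep cs g * R = R * rep cs g := by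
  have hg : g ∈ Subgroup.closure (Set.range (PresentedGroup.of : B → ArtinGroup M)) := by
    rw [PresentedGroup.closure_range_of]
    exact Subgroup.mem_top g
  induction hg using Subgroup.closure_induction with
  | mem x hx =>
    obtain ⟨i, rfl⟩ := hx
    rw [rep_of, hR]
  | one => simp
  | mul x y _ _ hx hy => rw [map_mul, mul_assoc, hy, ← mul_assoc, hx, mul_assoc]
  | inv x _ hx =>
    rw [map_inv]
    exact ((Commute.inv_left (show Commute (rep cs x) R from hx)) : _)

/-- the image of `e₁` under a parabolic element is also its image under a right operator -/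
theorem exists_right {T : Set B} {h : ArtinGroup M} (hh : h ∈ Apar M T) :
    ∃ R : (Module.End ℤ (W →₀ ℤ))ˣ, (∀ i, unitA cs i * R = R * unitA cs i) ∧
      ((rep cs h : (Module.End ℤ (W →₀ ℤ))ˣ) : Module.End ℤ (W →₀ ℤ)) (Finsupp.single 1 1) =
        (R : Module.End ℤ (W →₀ ℤ)) (Finsupp.single 1 1) ∧
      ∀ S : Set W, (∀ y ∈ S, ∀ i ∈ T, y * cs.simple i ∈ S) → ∀ x : W →₀ ℤ, (∀ y ∈ S, x y = 0) →
        (∀ y ∈ S, (R : Module.End ℤ (W →₀ ℤ)) x y = 0) ∧
        ∀ y ∈ S, ((R⁻¹ : (Module.End ℤ (W →₀ ℤ))ˣ) : Module.End ℤ (W →₀ ℤ)) x y = 0 := by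
  induction hh using Subgroup.closure_induction with
  | mem g hg =>
    obtain ⟨j, hj, rfl⟩ := hg
    refine ⟨unitR cs j, fun i => unitA_comm_unitR cs i j, ?_, ?_⟩
    · change ((rep cs (PresentedGroup.of j) : (Module.End ℤ (W →₀ ℤ))ˣ) : Module.End ℤ (W →₀ ℤ))
        (Finsupp.single 1 1) = _
      rw [rep_of]
      change Finsupp.single 1 1 - opL cs j (Finsupp.single 1 1) =
        Finsupp.single 1 1 - opR cs j (Finsupp.single 1 1)
      rw [opL_single, opR_single, inv_one, mul_one, one_mul]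
    · intro S hS x hx
      have hop : ∀ y ∈ S, opR cs j x y = 0 := by
        intro y hy
        rw [opR_apply, hx y hy, hx _ (hS y hy j hj)]
        simp
      constructor
      · intro y hy
        change (x - opR cs j x) y = 0
        rw [Finsupp.sub_apply, hx y hy, hop y hy, sub_zero]
      · intro y hy
        change (x + opR cs j x) y = 0
        rw [Finsupp.add_apply, hx y hy, hop y hy, add_zero]
  | one =>
    refine ⟨1, fun i => by simp, by rw [map_one], ?_⟩
    intro S _ x hx
    rw [inv_one]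
    exact ⟨hx, hx⟩
  | mul g g' _ _ ih ih' =>
    obtain ⟨R, h1, h2, h3⟩ := ih
    obtain ⟨R', h1', h2', h3'⟩ := ih'
    refine ⟨R' * R, ?_, ?_, ?_⟩
    · intro i
      rw [← mul_assoc, h1', mul_assoc, h1, mul_assoc]
    · rw [map_mul, Units.val_mul, Module.End.mul_apply, h2', ← Module.End.mul_apply, ← Units.val_mul,
        rep_comm cs h1', Units.val_mul, Module.End.mul_apply, h2, Units.val_mul, Module.End.mul_apply]
    · intro S hS x hx
      rw [mul_inv_rev, Units.val_mul, Units.val_mul]
      exact ⟨(h3' S hS _ (h3 S hS x hx).1).1, (h3 S hS _ (h3' S hS x hx).2).2⟩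
  | inv g _ ih =>
    obtain ⟨R, h1, h2, h3⟩ := ih
    have h1' : ∀ i, unitA cs i * R⁻¹ = R⁻¹ * unitA cs i := fun i =>
      ((Commute.inv_right (show Commute (unitA cs i) R from h1 i)) : _)
    refine ⟨R⁻¹, h1', ?_, ?_⟩
    · have h4 : rep cs g⁻¹ * R = R * rep cs g⁻¹ := rep_comm cs h1 g⁻¹
      have h5 : ((rep cs g⁻¹ : (Module.End ℤ (W →₀ ℤ))ˣ) : Module.End ℤ (W →₀ ℤ))
          ((R : Module.End ℤ (W →₀ ℤ)) (Finsupp.single 1 1)) = Finsupp.single 1 1 := by
        rw [← h2, ← Module.End.mul_apply, ← Units.val_mul, ← map_mul, inv_mul_cancel, map_one]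
        rfl
      have h6 : (((R⁻¹ : (Module.End ℤ (W →₀ ℤ))ˣ)) : Module.End ℤ (W →₀ ℤ))
          (((rep cs g⁻¹ : (Module.End ℤ (W →₀ ℤ))ˣ) : Module.End ℤ (W →₀ ℤ))
          ((R : Module.End ℤ (W →₀ ℤ)) (Finsupp.single 1 1))) =
          ((rep cs g⁻¹ : (Module.End ℤ (W →₀ ℤ))ˣ) : Module.End ℤ (W →₀ ℤ)) (Finsupp.single 1 1) := by
        rw [← Module.End.mul_apply, ← Module.End.mul_apply, ← Units.val_mul, ← Units.val_mul, mul_assoc,
          h4, inv_mul_cancel_left]
      rw [h5] at h6
      exact h6.symm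
    · intro S hS x hx
      rw [inv_inv]
      exact ⟨(h3 S hS x hx).2, (h3 S hS x hx).1⟩

/-- The double coset theorem. -/
theorem double_coset {T₁ T₂ : Set B} {l l' : List (B × ℤ)} (hl : ∀ p ∈ l, p.2 ≠ 0)
    (hl' : ∀ p ∈ l', p.2 ≠ 0) (hr : cs.IsReduced (letters l)) (hr' : cs.IsReduced (letters l'))
    (hmin : IsMinimal cs T₁ T₂ (cs.wordProd (letters l)))
    (hmin' : IsMinimal cs T₁ T₂ (cs.wordProd (letters l')))
    {h₁ h₂ : ArtinGroup M} (hh₁ : h₁ ∈ Apar M T₁) (hh₂ : h₂ ∈ Apar M T₂)
    (h : h₁ * artinWord M l = artinWord M l' * h₂) :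
    ∃ z₁ ∈ Wpar cs T₁, ∃ z₂ ∈ Wpar cs T₂,
      z₁ * cs.wordProd (letters l) = cs.wordProd (letters l') * z₂ := by
  obtain ⟨R, hR1, hR2, hR3⟩ := exists_right cs hh₂
  have hvec : ((rep cs h₁ : (Module.End ℤ (W →₀ ℤ))ˣ) : Module.End ℤ (W →₀ ℤ)) (vec cs (artinWord M l)) =
      (R : Module.End ℤ (W →₀ ℤ)) (vec cs (artinWord M l')) := by
    have h1 := congrArg (fun g => ((rep cs g : (Module.End ℤ (W →₀ ℤ))ˣ) : Module.End ℤ (W →₀ ℤ))
      (Finsupp.single 1 1)) h
    simp only [map_mul, Units.val_mul, Module.End.mul_apply] at h1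
    rw [hR2, ← Module.End.mul_apply, ← Module.End.mul_apply, ← Units.val_mul, ← Units.val_mul,
      rep_comm cs hR1] at h1
    rw [vec, vec, ← Module.End.mul_apply, ← Module.End.mul_apply, ← Units.val_mul, ← Units.val_mul]
    exact h1
  obtain ⟨h1, h2⟩ := vec_lead cs l hr
  obtain ⟨h1', h2'⟩ := vec_lead cs l' hr'
  have hlen : cs.length (cs.wordProd (letters l)) = l.length := by
    rw [hr.eq]; simp [letters]
  have hlen' : cs.length (cs.wordProd (letters l')) = l'.length := by
    rw [hr'.eq]; simp [letters]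
  have hne : ∀ l : List (B × ℤ), (∀ p ∈ l, p.2 ≠ 0) →
      (-1) ^ l.length * (l.map Prod.snd).prod ≠ 0 := by
    intro l hl
    apply mul_ne_zero (pow_ne_zero _ (by norm_num))
    apply List.prod_ne_zero
    intro hmem
    obtain ⟨p, hp, hp2⟩ := List.mem_map.1 hmem
    exact hl p hp hp2
  have hleft : ∀ (u : W), ∀ y ∈ {y | ∃ z₁ ∈ Wpar cs T₁, ∃ z₂ ∈ Wpar cs T₂, y = z₁ * u * z₂},
      ∀ i ∈ T₁, cs.simple i * y ∈ {y | ∃ z₁ ∈ Wpar cs T₁, ∃ z₂ ∈ Wpar cs T₂, y = z₁ * u * z₂} := by
    rintro u y ⟨z₁, hz₁, z₂, hz₂, rfl⟩ i hi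
    exact ⟨cs.simple i * z₁, mul_mem (Subgroup.subset_closure ⟨i, hi, rfl⟩) hz₁, z₂, hz₂, by
      simp only [mul_assoc]⟩
  have hright : ∀ (u : W), ∀ y ∈ {y | ∃ z₁ ∈ Wpar cs T₁, ∃ z₂ ∈ Wpar cs T₂, y = z₁ * u * z₂},
      ∀ i ∈ T₂, y * cs.simple i ∈ {y | ∃ z₁ ∈ Wpar cs T₁, ∃ z₂ ∈ Wpar cs T₂, y = z₁ * u * z₂} := by
    rintro u y ⟨z₁, hz₁, z₂, hz₂, rfl⟩ i hi
    exact ⟨z₁, hz₁, z₂ * cs.simple i, mul_mem hz₂ (Subgroup.subset_closure ⟨i, hi, rfl⟩), by
      simp only [mul_assoc]⟩
  by_contra hcon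
  push Not at hcon
  rcases le_total l'.length l.length with h3 | h3
  · -- `x_v` vanishes on the double coset of `u`
    have h4 : ∀ y ∈ {y | ∃ z₁ ∈ Wpar cs T₁, ∃ z₂ ∈ Wpar cs T₂, y = z₁ * cs.wordProd (letters l) * z₂},
        vec cs (artinWord M l') y = 0 := by
      rintro y ⟨z₁, hz₁, z₂, hz₂, rfl⟩
      apply h2'
      · have := hmin z₁ hz₁ z₂ hz₂
        omega
      · intro h5
        apply hcon z₁ hz₁ z₂⁻¹ (inv_mem hz₂)
        rw [← h5]
        group
    have h5 := (hR3 _ (hright _) _ h4).1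
    rw [← hvec] at h5
    have h6 := (rep_vanish cs hh₁ (hleft (cs.wordProd (letters l))) _ h5).2
      (cs.wordProd (letters l)) ⟨1, one_mem _, 1, one_mem _, by simp⟩
    rw [← Module.End.mul_apply, ← Units.val_mul, inv_mul_cancel] at h6
    change vec cs (artinWord M l) (cs.wordProd (letters l)) = 0 at h6
    rw [h1] at h6
    exact hne l hl h6
  · have h4 : ∀ y ∈ {y | ∃ z₁ ∈ Wpar cs T₁, ∃ z₂ ∈ Wpar cs T₂, y = z₁ * cs.wordProd (letters l') * z₂},
        vec cs (artinWord M l) y = 0 := by
      rintro y ⟨z₁, hz₁, z₂, hz₂, rfl⟩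
      apply h2
      · have := hmin' z₁ hz₁ z₂ hz₂
        omega
      · intro h5
        apply hcon z₁⁻¹ (inv_mem hz₁) z₂ hz₂
        rw [← h5]
        group
    have h5 := (rep_vanish cs hh₁ (hleft (cs.wordProd (letters l'))) _ h4).1
    rw [hvec] at h5
    have h6 := (hR3 _ (hright _) _ h5).2 (cs.wordProd (letters l'))
      ⟨1, one_mem _, 1, one_mem _, by simp⟩
    rw [← Module.End.mul_apply, ← Units.val_mul, inv_mul_cancel] at h6
    change vec cs (artinWord M l') (cs.wordProd (letters l')) = 0 at h6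
    rw [h1'] at h6
    exact hne l' hl' h6

end Pool.Agent.Lib.MP_f146a9_al
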