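import Mathlib

/-!
MP_f146a9_al. Artin groups, words with exponents, and closed geodesics of the spherical Deligne complex
which develop transversally on a great circle.
-/

namespace Pool.Agent.Lib.MP_f146a9_al

/-- the alternating product `a b a b ...` with the given number of factors -/
def altProd {G : Type*} [Monoid G] (a b : G) : ℕ → G
  | 0 => 1
  | n + 1 => a * altProd b a n

/-- the defining relations of the Artin group of the Coxeter matrix `M` (the entry `0` means `∞`, no
relation): the alternating words `i j i ...` and `j i j ...` with `M i j` letters are equal -/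
def artinRels {B : Type*} (M : CoxeterMatrix B) : Set (FreeGroup B) :=
  {r | ∃ i j : B, M i j ≠ 0 ∧ r = altProd (FreeGroup.of i) (FreeGroup.of j) (M i j) *
    (altProd (FreeGroup.of j) (FreeGroup.of i) (M i j))⁻¹}

/-- the Artin group of the Coxeter matrix `M` -/
abbrev ArtinGroup {B : Type*} (M : CoxeterMatrix B) : Type _ := PresentedGroup (artinRels M)

/-- the element `i₁ ^ k₁ * ... * iₙ ^ kₙ` of the Artin group, for the list `[(i₁, k₁), ..., (iₙ, kₙ)]` -/
def artinWord {B : Type*} (M : CoxeterMatrix B) (l : List (B × ℤ)) : ArtinGroup M :=
  (l.map fun p => (PresentedGroup.of p.1 : ArtinGroup M) ^ p.2).prod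

/-- the word of generators `[i₁, ..., iₙ]` of the list `[(i₁, k₁), ..., (iₙ, kₙ)]` -/
def letters {B : Type*} (l : List (B × ℤ)) : List B := l.map Prod.fst

/-- the standard parabolic subgroup `A_T` of the Artin group -/
def Apar {B : Type*} (M : CoxeterMatrix B) (T : Set B) : Subgroup (ArtinGroup M) :=
  Subgroup.closure ((fun i => (PresentedGroup.of i : ArtinGroup M)) '' T)

/-- the standard parabolic subgroup `W_T` of the Coxeter group -/
def Wpar {B W : Type*} [Group W] {M : CoxeterMatrix B} (cs : CoxeterSystem M W) (T : Set B) :
    Subgroup W := Subgroup.closure (cs.simple '' T)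

/-- `u` has minimal length in its double coset `W_{T₁} u W_{T₂}` -/
def IsMinimal {B W : Type*} [Group W] {M : CoxeterMatrix B} (cs : CoxeterSystem M W) (T₁ T₂ : Set B)
    (u : W) : Prop :=
  ∀ z₁ ∈ Wpar cs T₁, ∀ z₂ ∈ Wpar cs T₂, cs.length u ≤ cs.length (z₁ * u * z₂)

/-- the point at distance `θ` from `x` of the great circle through `x` in the direction `y` -/
noncomputable def circlePt {V : Type*} [NormedAddCommGroup V] [InnerProductSpace ℝ V] (x y : V) (θ : ℝ) :
    V := Real.cos θ • x + Real.sin θ • y

/-- the reflection of the `j`-th wall crossed by the gallery of type `ω = [i₁, ..., iₙ]` which starts at the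
fundamental chamber: `s₁ ⋯ sⱼ sⱼ₊₁ sⱼ ⋯ s₁`, indices from `0` -/
def wall {B W : Type*} [Group W] {M : CoxeterMatrix B} (cs : CoxeterSystem M W) (ω : List B)
    (j : Fin ω.length) : W :=
  cs.wordProd (ω.take j) * cs.simple ω[j] * (cs.wordProd (ω.take j))⁻¹

/-- `C` is a chamber for the action `ρ`: no element of the group but `1` maps a point of `C` to a point of
`C` (for the canonical representation of a Coxeter group the open fundamental chamber has this property) -/
def IsChamber {W : Type*} [Group W] {V : Type*} [NormedAddCommGroup V] [InnerProductSpace ℝ V]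
    (ρ : W →* (V ≃ₗᵢ[ℝ] V)) (C : Set V) : Prop :=
  ∀ z : W, ∀ v ∈ C, ρ z v ∈ C → z = 1

/-- A geodesic arc of length `len` of the spherical Deligne complex of the Artin group of `M` which develops
transversally on a great circle of the sphere on which the Coxeter group acts by `ρ` (for finite `W` and the
canonical representation `ρ` this sphere is tiled by the chambers of the Coxeter complex, and the chambers
`a C` of the spherical Deligne complex, one for each element `a` of the Artin group, are copies of the
fundamental chamber, with interior `C`).

The arc starts at a point `x` of a face of type `T₁` of a chamber `a C` (the generators in `T₁` fix `x`; `T₁`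
is empty if the point is in the interior of the chamber), runs into this chamber in the direction `y`, and
after the crossings `(i₁, k₁), ..., (iⱼ, kⱼ)` it is in the chamber `a i₁ ^ k₁ ⋯ iⱼ ^ kⱼ C`; a local geodesic
which crosses a face of type `i` changes the chamber, `k ≠ 0`. Developed on the sphere it is the arc of the
great circle from `x` in the direction `y`, in the chambers `s₁ ⋯ sⱼ C`; the `j`-th crossing is at the time
`time j` on the wall of the reflection `s₁ ⋯ sⱼ₋₁ sⱼ sⱼ₋₁ ⋯ s₁`. Walls crossed at the same time are distinct
(automatic if only faces of codimension one are crossed; simultaneous crossings happen at faces of higher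
codimension which are passed straight). In the last chamber the end point is the point `e` of a face of type
`T₂`. -/
structure GeodesicArc {B W : Type*} [Group W] {M : CoxeterMatrix B} (cs : CoxeterSystem M W)
    {V : Type*} [NormedAddCommGroup V] [InnerProductSpace ℝ V] (ρ : W →* (V ≃ₗᵢ[ℝ] V)) (C : Set V)
    (T₁ T₂ : Set B) where
  /-- the length -/
  len : ℝ
  len_pos : 0 < len
  /-- the starting point -/
  x : V
  /-- the starting direction -/
  y : V
  /-- the end point, in the last chamber -/
  e : V
  norm_x : ‖x‖ = 1
  norm_y : ‖y‖ = 1
  inner_xy : inner ℝ x y = 0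
  start_chamber : ∃ δ > 0, ∀ θ, 0 < θ → θ < δ → circlePt x y θ ∈ C
  start_face : ∀ i ∈ T₁, ρ (cs.simple i) x = x
  end_face : ∀ i ∈ T₂, ρ (cs.simple i) e = e
  /-- the crossings: types of the faces and exponents -/
  cross : List (B × ℤ)
  exp_ne : ∀ p ∈ cross, p.2 ≠ 0
  /-- the times of the crossings -/
  time : Fin (letters cross).length → ℝ
  time_mem : ∀ j, 0 < time j ∧ time j < len
  time_mono : Monotone time
  on_wall : ∀ j, ρ (wall cs (letters cross) j) (circlePt x y (time j)) = circlePt x y (time j)
  distinct : ∀ i j, time i = time j → wall cs (letters cross) i = wall cs (letters cross) j → i = j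
  end_pt : ρ (cs.wordProd (letters cross)) e = circlePt x y len

end Pool.Agent.Lib.MP_f146a9_al
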