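import Pool.Agent.Lib.MP_f146a9_al.Cosets

/-!
MP_f146a9_al. Galleries along a great circle.
-/

namespace Pool.Agent.Lib.MP_f146a9_al

open CoxeterSystem Pool.Agent.Lib.MP_529e02_al

variable {B W : Type*} [Group W] {M : CoxeterMatrix B} (cs : CoxeterSystem M W)

variable {V : Type*} [NormedAddCommGroup V] [InnerProductSpace ℝ V]

theorem fin_take {α : Type*} (p : ℕ) (ω : List α) (j : Fin (ω.take p).length) :
    j.1 < p ∧ j.1 < ω.length := by
  have h1 : (ω.take p).length = min p ω.length := List.length_take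
  have h2 := j.2
  omega

theorem fin_drop {α : Type*} (p : ℕ) (ω : List α) (j : Fin (ω.drop p).length) :
    p + j.1 < ω.length := by
  have h1 : (ω.drop p).length = ω.length - p := List.length_drop
  have h2 := j.2
  omega

theorem leftInvSeq_getElem_eq_wall (ω : List B) (j : Fin ω.length) :
    (cs.leftInvSeq ω)[j.1]'(by rw [length_leftInvSeq]; exact j.2) = wall cs ω j := by
  rw [getElem_leftInvSeq, wall]
  rfl

/-- two points of a great circle at distance less than `π` span it -/
theorem fix_of_fix {f : V →ₗ[ℝ] V} {x y : V} {a b : ℝ} (hab : a < b) (hb : b - a < Real.pi)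
    (ha : f (circlePt x y a) = circlePt x y a) (hb' : f (circlePt x y b) = circlePt x y b) :
    f x = x ∧ f y = y := by
  have hs : Real.sin (b - a) ≠ 0 := (Real.sin_pos_of_pos_of_lt_pi (by linarith) hb).ne'
  have h1 : Real.sin (b - a) • x = Real.sin b • circlePt x y a - Real.sin a • circlePt x y b := by
    rw [circlePt, circlePt, Real.sin_sub]
    module
  have h2 : Real.sin (b - a) • y = Real.cos a • circlePt x y b - Real.cos b • circlePt x y a := by
    rw [circlePt, circlePt, Real.sin_sub]
    module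
  constructor
  · have h3 : Real.sin (b - a) • f x = Real.sin (b - a) • x := by
      rw [← map_smul, h1, map_sub, map_smul, map_smul, ha, hb']
    exact smul_right_injective V hs h3
  · have h3 : Real.sin (b - a) • f y = Real.sin (b - a) • y := by
      rw [← map_smul, h2, map_sub, map_smul, map_smul, ha, hb']
    exact smul_right_injective V hs h3

theorem wall_take (ω : List B) (p : ℕ) (j : Fin (ω.take p).length) (hj : j.1 < ω.length) :
    wall cs (ω.take p) j = wall cs ω ⟨j.1, hj⟩ := by
  have h1 : j.1 < p := (fin_take p ω j).1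
  unfold wall
  have h2 : (ω.take p).take j.1 = ω.take j.1 := by
    rw [List.take_take, min_eq_left h1.le]
  have h3 : (ω.take p)[j] = ω[(⟨j.1, hj⟩ : Fin ω.length)] := by
    simp [List.getElem_take]
  rw [h2, h3]

theorem wall_drop (ω : List B) (p : ℕ) (j : Fin (ω.drop p).length) (hj : p + j.1 < ω.length) :
    wall cs ω ⟨p + j.1, hj⟩ = cs.wordProd (ω.take p) * wall cs (ω.drop p) j *
      (cs.wordProd (ω.take p))⁻¹ := by
  unfold wall
  have h2 : cs.wordProd (ω.take (p + j.1)) = cs.wordProd (ω.take p) * cs.wordProd ((ω.drop p).take j.1) := by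
    rw [List.take_add, wordProd_append]
  have h3 : (ω.drop p)[j] = ω[(⟨p + j.1, hj⟩ : Fin ω.length)] := by
    simp [List.getElem_drop]
  change cs.wordProd (ω.take (p + j.1)) * cs.simple (ω[(⟨p + j.1, hj⟩ : Fin ω.length)]) *
    (cs.wordProd (ω.take (p + j.1)))⁻¹ = _
  rw [h2, ← h3]
  group

theorem nodup_of_wall_inj {ω : List B} (h : Function.Injective (wall cs ω)) : (cs.leftInvSeq ω).Nodup := by
  rw [List.nodup_iff_injective_get]
  intro a b hab
  have ha : a.1 < ω.length := a.2.trans_eq (length_leftInvSeq cs ω)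
  have hb : b.1 < ω.length := b.2.trans_eq (length_leftInvSeq cs ω)
  have h1 := leftInvSeq_getElem_eq_wall cs ω ⟨a.1, ha⟩
  have h2 := leftInvSeq_getElem_eq_wall cs ω ⟨b.1, hb⟩
  have h3 : wall cs ω ⟨a.1, ha⟩ = wall cs ω ⟨b.1, hb⟩ := by
    rw [← h1, ← h2]
    exact hab
  have h4 := h h3
  ext
  simpa using h4

theorem letters_reverse (l : List (B × ℤ)) :
    letters (l.reverse.map fun p => (p.1, -p.2)) = (letters l).reverse := by
  simp [letters, List.map_reverse, Function.comp_def]

theorem artinWord_inv (l : List (B × ℤ)) :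
    artinWord M (l.reverse.map fun p => (p.1, -p.2)) = (artinWord M l)⁻¹ := by
  induction l with
  | nil => simp [artinWord]
  | cons p l ih =>
    rw [List.reverse_cons, List.map_append, artinWord_append, ih, artinWord_cons, mul_inv_rev]
    simp [artinWord]

/-- an element of a parabolic subgroup lies on the positive side of the other walls -/
theorem side_par {T : Set B} {z : W} (hz : z ∈ Wpar cs T) : ∀ t : W, t ∉ Wpar cs T → side cs z t = 0 := by
  induction hz using Subgroup.closure_induction with
  | mem z hz =>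
    obtain ⟨i, hi, rfl⟩ := hz
    intro t ht
    rw [side_simple, if_neg]
    rintro rfl
    exact ht (Subgroup.subset_closure ⟨i, hi, rfl⟩)
  | one => exact fun t _ => side_one cs t
  | mul a b ha hb iha ihb =>
    intro t ht
    rw [side_mul, iha t ht, ihb _ ?_, add_zero]
    intro h
    apply ht
    have : t = a * (a⁻¹ * t * a) * a⁻¹ := by group
    rw [this]
    exact mul_mem (mul_mem ha h) (inv_mem ha)
  | inv a ha iha =>
    intro t ht
    have h1 : side cs (a⁻¹ * a) t = 0 := by rw [inv_mul_cancel, side_one]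
    rw [side_mul, inv_inv, iha _ ?_, add_zero] at h1
    · exact h1
    · intro h
      apply ht
      have : t = a⁻¹ * (a * t * a⁻¹) * a := by group
      rw [this]
      exact mul_mem (mul_mem (inv_mem ha) h) ha

/-- minimality from the walls -/
theorem isMinimal_of_wall {T₁ T₂ : Set B} {ω : List B} (hinj : Function.Injective (wall cs ω))
    (h1 : ∀ j, wall cs ω j ∉ Wpar cs T₁)
    (h2 : ∀ j, (cs.wordProd ω)⁻¹ * wall cs ω j * cs.wordProd ω ∉ Wpar cs T₂) :
    IsMinimal cs T₁ T₂ (cs.wordProd ω) := by
  classical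
  intro z₁ hz₁ z₂ hz₂
  have hnd := nodup_of_wall_inj cs hinj
  obtain ⟨ω', h3, h4⟩ := cs.exists_isReduced (z₁ * cs.wordProd ω * z₂)
  have h5 : ((cs.leftInvSeq ω).map fun t => z₁ * t * z₁⁻¹) ⊆ cs.leftInvSeq ω' := by
    intro t ht
    obtain ⟨r, hr, rfl⟩ := List.mem_map.1 ht
    obtain ⟨n, hn, hn'⟩ := List.getElem_of_mem hr
    have hn2 : n < ω.length := by rwa [length_leftInvSeq] at hn
    have hw : r = wall cs ω ⟨n, hn2⟩ := by
      rw [← leftInvSeq_getElem_eq_wall]
      exact hn'.symm
    have h6 : side cs (cs.wordProd ω) r = 1 := by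
      rw [side_word, List.count_eq_one_of_mem hnd hr]
      simp
    have h7 : side cs z₁ (z₁ * r * z₁⁻¹) = 0 := by
      apply side_par cs hz₁
      intro h
      apply h1 ⟨n, hn2⟩
      rw [← hw]
      have : r = z₁⁻¹ * (z₁ * r * z₁⁻¹) * z₁ := by group
      rw [this]
      exact mul_mem (mul_mem (inv_mem hz₁) h) hz₁
    have h8 : side cs z₂ ((cs.wordProd ω)⁻¹ * r * cs.wordProd ω) = 0 := by
      apply side_par cs hz₂
      rw [hw]
      exact h2 ⟨n, hn2⟩
    have h9 : side cs (z₁ * cs.wordProd ω * z₂) (z₁ * r * z₁⁻¹) = 1 := by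
      rw [mul_assoc, side_mul, side_mul]
      have h10 : z₁⁻¹ * (z₁ * r * z₁⁻¹) * z₁ = r := by group
      rw [h10, h6, h7, h8]
      decide
    rw [h4, side_word] at h9
    by_contra h10
    rw [List.count_eq_zero_of_not_mem h10] at h9
    simp at h9
  have h6 : ((cs.leftInvSeq ω).map fun t => z₁ * t * z₁⁻¹).Nodup := by
    apply List.Nodup.map _ hnd
    intro a b hab
    exact mul_left_cancel (mul_right_cancel hab)
  have h7 := (h6.subperm h5).length_le
  rw [List.length_map, length_leftInvSeq, length_leftInvSeq] at h7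
  have h8 : cs.length (z₁ * cs.wordProd ω * z₂) = ω'.length := by rw [h4]; exact h3.eq
  have h9 := cs.length_wordProd_le ω
  omega

theorem fix_par {ρ : W →* (V ≃ₗᵢ[ℝ] V)} {T : Set B} {v : V} (hv : ∀ i ∈ T, ρ (cs.simple i) v = v) {z : W}
    (hz : z ∈ Wpar cs T) : ρ z v = v := by
  induction hz using Subgroup.closure_induction with
  | mem z hz =>
    obtain ⟨i, hi, rfl⟩ := hz
    exact hv i hi
  | one => simp
  | mul a b _ _ iha ihb =>
    rw [map_mul]
    change ρ a (ρ b v) = v
    rw [ihb, iha]
  | inv a _ iha =>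
    rw [map_inv]
    change (ρ a).symm v = v
    rw [LinearIsometryEquiv.symm_apply_eq]
    exact iha.symm

theorem wall_ne_one (ω : List B) (j : Fin ω.length) : wall cs ω j ≠ 1 := by
  intro h
  have h1 : cs.IsReflection (wall cs ω j) := ⟨_, _, rfl⟩
  have h2 := h1.odd_length
  rw [h, length_one] at h2
  exact absurd h2 (by decide)

theorem Wpar_empty {z : W} (hz : z ∈ Wpar cs (∅ : Set B)) : z = 1 := by
  simpa [Wpar] using hz

theorem circlePt_zero (x y : V) : circlePt x y 0 = x := by simp [circlePt]

theorem map_circlePt (f : V ≃ₗᵢ[ℝ] V) (x y : V) (θ : ℝ) :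
    f (circlePt x y θ) = circlePt (f x) (f y) θ := by
  rw [circlePt, map_add, map_smul, map_smul, circlePt]

namespace GeodesicArc

variable {cs} {ρ : W →* (V ≃ₗᵢ[ℝ] V)} {C : Set V} {T₁ T₂ : Set B} (g : GeodesicArc cs ρ C T₁ T₂)

include g in
theorem free (hC : IsChamber ρ C) {z : W} (h1 : ρ z g.x = g.x) (h2 : ρ z g.y = g.y) : z = 1 := by
  obtain ⟨δ, hδ, h3⟩ := g.start_chamber
  have h4 := h3 (δ / 2) (by linarith) (by linarith)
  exact hC z _ h4 (by rw [map_circlePt, h1, h2]; exact h4)

theorem transverse (hC : IsChamber ρ C) (j) :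
    ¬ (ρ (wall cs (letters g.cross) j) g.x = g.x ∧ ρ (wall cs (letters g.cross) j) g.y = g.y) :=
  fun h => wall_ne_one cs _ j (g.free hC h.1 h.2)

/-- two times of crossing of the same wall -/
theorem wall_inj (hC : IsChamber ρ C) (i j) (h1 : g.time j - g.time i < Real.pi)
    (h2 : g.time i ≤ g.time j)
    (h3 : wall cs (letters g.cross) i = wall cs (letters g.cross) j) : i = j := by
  rcases h2.lt_or_eq with h4 | h4
  · exfalso
    have h5 := fix_of_fix (f := ((ρ (wall cs (letters g.cross) i)).toLinearEquiv : V →ₗ[ℝ] V))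
      (x := g.x) (y := g.y) h4 h1 (g.on_wall i) (by rw [h3]; exact g.on_wall j)
    exact g.transverse hC i h5
  · exact g.distinct i j h4 h3

theorem wall_not_start (hC : IsChamber ρ C) (j) (h1 : g.time j < Real.pi) :
    wall cs (letters g.cross) j ∉ Wpar cs T₁ := by
  intro h
  have h2 := fix_par cs g.start_face h
  have h5 := fix_of_fix (f := ((ρ (wall cs (letters g.cross) j)).toLinearEquiv : V →ₗ[ℝ] V))
    (x := g.x) (y := g.y) (g.time_mem j).1 (by linarith) (by rw [circlePt_zero]; exact h2) (g.on_wall j)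
  exact g.transverse hC j h5

theorem wall_not_end (hC : IsChamber ρ C) (j) (h1 : g.len - g.time j < Real.pi) :
    (cs.wordProd (letters g.cross))⁻¹ * wall cs (letters g.cross) j * cs.wordProd (letters g.cross) ∉
      Wpar cs T₂ := by
  intro h
  have h2 := fix_par cs g.end_face h
  rw [map_mul, map_mul, map_inv] at h2
  change (ρ (cs.wordProd (letters g.cross))).symm (ρ (wall cs (letters g.cross) j)
    (ρ (cs.wordProd (letters g.cross)) g.e)) = g.e at h2
  rw [LinearIsometryEquiv.symm_apply_eq, g.end_pt] at h2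
  have h5 := fix_of_fix (f := ((ρ (wall cs (letters g.cross) j)).toLinearEquiv : V →ₗ[ℝ] V))
    (x := g.x) (y := g.y) (g.time_mem j).2 (by linarith) (g.on_wall j) h2
  exact g.transverse hC j h5

theorem wall_inj_of_lt (hC : IsChamber ρ C) (h : g.len < Real.pi) :
    Function.Injective (wall cs (letters g.cross)) := by
  intro a b hab
  have h1 := g.time_mem a
  have h2 := g.time_mem b
  rcases le_total (g.time a) (g.time b) with h5 | h5
  · exact g.wall_inj hC _ _ (by linarith) h5 hab
  · exact (g.wall_inj hC _ _ (by linarith) h5 hab.symm).symm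

/-- an arc shorter than `π` has a reduced word, minimal in its double coset -/
theorem reduced_of_lt (hC : IsChamber ρ C) (h : g.len < Real.pi) : cs.IsReduced (letters g.cross) ∧
    IsMinimal cs T₁ T₂ (cs.wordProd (letters g.cross)) := by
  have h1 := g.wall_inj_of_lt hC h
  refine ⟨isReduced_of_nodup cs (nodup_of_wall_inj cs h1), isMinimal_of_wall cs h1 ?_ ?_⟩
  · exact fun j => g.wall_not_start hC j ((g.time_mem j).2.trans h)
  · exact fun j => g.wall_not_end hC j (by linarith [(g.time_mem j).1])

/-- the stabilizers of the end points of an arc shorter than `π` intersect trivially -/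
theorem triv (hC : IsChamber ρ C) (h : g.len < Real.pi) (z₁) (hz₁ : z₁ ∈ Wpar cs T₁) (z₂)
    (hz₂ : z₂ ∈ Wpar cs T₂)
    (hz : z₁ * cs.wordProd (letters g.cross) = cs.wordProd (letters g.cross) * z₂) : z₁ = 1 := by
  have h1 : ρ z₁ (circlePt g.x g.y g.len) = circlePt g.x g.y g.len := by
    rw [← g.end_pt]
    have h2 := congrArg (fun w => ρ w g.e) hz
    simp only [map_mul] at h2
    change ρ z₁ (ρ (cs.wordProd (letters g.cross)) g.e) =
      ρ (cs.wordProd (letters g.cross)) (ρ z₂ g.e) at h2
    rw [h2, fix_par cs g.end_face hz₂]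
  have h5 := fix_of_fix (f := ((ρ z₁).toLinearEquiv : V →ₗ[ℝ] V))
    (x := g.x) (y := g.y) g.len_pos (by linarith)
    (by rw [circlePt_zero]; exact fix_par cs g.start_face hz₁) h1
  exact g.free hC h5.1 h5.2

theorem inner_circlePt (θ : ℝ) : inner ℝ g.x (circlePt g.x g.y θ) = Real.cos θ := by
  simp [circlePt, inner_add_right, inner_smul_right, g.inner_xy, g.norm_x]

end GeodesicArc

/-- Two arcs shorter than `π` with the same end points. -/
theorem bigon {ρ : W →* (V ≃ₗᵢ[ℝ] V)} {C : Set V} (hC : IsChamber ρ C) {T₁ T₂ : Set B}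
    (a b : GeodesicArc cs ρ C T₁ T₂)
    (ha : a.len < Real.pi) (hb : b.len < Real.pi) (hx : a.x = b.x) (he : a.e = b.e)
    {h₁ h₂ : ArtinGroup M} (hh₁ : h₁ ∈ Apar M T₁) (hh₂ : h₂ ∈ Apar M T₂)
    (h : h₁ * artinWord M a.cross = artinWord M b.cross * h₂) :
    a.len = b.len ∧ a.y = b.y ∧ ∃ z₂ ∈ Wpar cs T₂,
      cs.wordProd (letters a.cross) = cs.wordProd (letters b.cross) * z₂ := by
  obtain ⟨z₁, hz₁, z₂, hz₂, hz⟩ := double_coset cs a.exp_ne b.exp_ne (a.reduced_of_lt hC ha).1
    (b.reduced_of_lt hC hb).1 (a.reduced_of_lt hC ha).2 (b.reduced_of_lt hC hb).2 hh₁ hh₂ h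
  have h1 : ρ z₁ (circlePt a.x a.y a.len) = circlePt b.x b.y b.len := by
    rw [← a.end_pt, ← b.end_pt]
    have h2 := congrArg (fun g => ρ g a.e) hz
    simp only [map_mul] at h2
    change ρ z₁ (ρ (cs.wordProd (letters a.cross)) a.e) =
      ρ (cs.wordProd (letters b.cross)) (ρ z₂ a.e) at h2
    rw [h2, fix_par cs a.end_face hz₂, he]
  have hzx : ρ z₁ a.x = a.x := fix_par cs a.start_face hz₁
  have h2 : Real.cos a.len = Real.cos b.len := by
    have h3 : inner ℝ (ρ z₁ a.x) (ρ z₁ (circlePt a.x a.y a.len)) =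
        inner ℝ a.x (circlePt a.x a.y a.len) := LinearIsometryEquiv.inner_map_map _ _ _
    rw [← a.inner_circlePt, ← b.inner_circlePt, ← h1, ← hx, ← h3, hzx]
  have h3 : a.len = b.len :=
    Real.injOn_cos ⟨a.len_pos.le, ha.le⟩ ⟨b.len_pos.le, hb.le⟩ h2
  have hzy : ρ z₁ a.y = b.y := by
    have hs : Real.sin b.len ≠ 0 := (Real.sin_pos_of_pos_of_lt_pi b.len_pos hb).ne'
    rw [circlePt, circlePt, map_add, map_smul, map_smul, hzx, h3, hx] at h1
    exact smul_right_injective V hs (add_left_cancel h1)
  have hz1 : z₁ = 1 := by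
    obtain ⟨δ, hδ, h4⟩ := a.start_chamber
    obtain ⟨δ', hδ', h5⟩ := b.start_chamber
    have h6 := h4 (min δ δ' / 2) (by positivity) (by linarith [min_le_left δ δ', lt_min hδ hδ'])
    have h7 := h5 (min δ δ' / 2) (by positivity) (by linarith [min_le_right δ δ', lt_min hδ hδ'])
    apply hC z₁ _ h6
    rw [map_circlePt, hzx, hzy, hx]
    exact h7
  rw [hz1, map_one] at hzy
  rw [hz1, one_mul] at hz
  exact ⟨h3, hzy, z₂, hz₂, hz⟩

/-- A geodesic loop, or closed geodesic with at most one singular point, has length at least `2 π`. -/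
theorem loop {ρ : W →* (V ≃ₗᵢ[ℝ] V)} {C : Set V} (hC : IsChamber ρ C) {T : Set B}
    (g : GeodesicArc cs ρ C T T) (he : g.e = g.x)
    (hg : artinWord M g.cross ∈ Apar M T) : 2 * Real.pi ≤ g.len := by
  by_contra hcon
  push Not at hcon
  have hpi := Real.pi_pos
  -- the splitting index
  set p : ℕ := (Finset.univ.filter fun j => g.time j < Real.pi).card with hp
  have hsplit1 : ∀ j : Fin (letters g.cross).length, j.1 < p → g.time j < Real.pi := by
    intro j hj
    by_contra h1
    have h2 : (Finset.univ.filter fun i => g.time i < Real.pi) ⊆ Finset.Iio j := by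
      intro i hi
      rw [Finset.mem_filter] at hi
      rw [Finset.mem_Iio]
      by_contra h3
      exact h1 (lt_of_le_of_lt (g.time_mono (not_lt.1 h3)) hi.2)
    have h3 := Finset.card_le_card h2
    rw [Fin.card_Iio] at h3
    omega
  have hsplit2 : ∀ j : Fin (letters g.cross).length, p ≤ j.1 → Real.pi ≤ g.time j := by
    intro j hj
    by_contra h1
    push Not at h1
    have h2 : Finset.Iic j ⊆ (Finset.univ.filter fun i => g.time i < Real.pi) := by
      intro i hi
      rw [Finset.mem_Iic] at hi
      rw [Finset.mem_filter]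
      exact ⟨Finset.mem_univ _, lt_of_le_of_lt (g.time_mono hi) h1⟩
    have h3 := Finset.card_le_card h2
    rw [Fin.card_Iic] at h3
    omega
  have hbot : ∀ z : W, z ∈ Wpar cs (∅ : Set B) → z = 1 := fun z hz => Wpar_empty cs hz
  have hwall1 : ∀ j, wall cs (letters g.cross) j ≠ 1 := fun j => wall_ne_one cs _ j
  have hinj1 : Function.Injective (wall cs ((letters g.cross).take p)) := by
    intro a b hab
    have ha : a.1 < (letters g.cross).length := (fin_take p _ a).2
    have hb : b.1 < (letters g.cross).length := (fin_take p _ b).2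
    rw [wall_take cs _ p a ha, wall_take cs _ p b hb] at hab
    have h1 := hsplit1 ⟨a.1, ha⟩ (fin_take p _ a).1
    have h2 := hsplit1 ⟨b.1, hb⟩ (fin_take p _ b).1
    have h3 := (g.time_mem ⟨a.1, ha⟩).1
    have h4 := (g.time_mem ⟨b.1, hb⟩).1
    rcases le_total (g.time ⟨a.1, ha⟩) (g.time ⟨b.1, hb⟩) with h5 | h5
    · have := g.wall_inj hC _ _ (by linarith) h5 hab
      ext
      simpa using this
    · have := g.wall_inj hC _ _ (by linarith) h5 hab.symm
      ext
      simpa using this.symm
  have hinj2 : Function.Injective (wall cs ((letters g.cross).drop p)) := by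
    intro a b hab
    have ha : p + a.1 < (letters g.cross).length := fin_drop p _ a
    have hb : p + b.1 < (letters g.cross).length := fin_drop p _ b
    have hab' : wall cs (letters g.cross) ⟨p + a.1, ha⟩ = wall cs (letters g.cross) ⟨p + b.1, hb⟩ := by
      rw [wall_drop cs _ p a ha, wall_drop cs _ p b hb, hab]
    have h1 := hsplit2 ⟨p + a.1, ha⟩ (by simp)
    have h2 := hsplit2 ⟨p + b.1, hb⟩ (by simp)
    have h3 := (g.time_mem ⟨p + a.1, ha⟩).2
    have h4 := (g.time_mem ⟨p + b.1, hb⟩).2
    rcases le_total (g.time ⟨p + a.1, ha⟩) (g.time ⟨p + b.1, hb⟩) with h5 | h5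
    · have := g.wall_inj hC _ _ (by linarith) h5 hab'
      ext
      simpa using this
    · have := g.wall_inj hC _ _ (by linarith) h5 hab'.symm
      ext
      simpa using this.symm
  have hword : cs.wordProd (letters g.cross) =
      cs.wordProd ((letters g.cross).take p) * cs.wordProd ((letters g.cross).drop p) := by
    rw [← wordProd_append, List.take_append_drop]
  have hmin1 : IsMinimal cs T ∅ (cs.wordProd ((letters g.cross).take p)) := by
    apply isMinimal_of_wall cs hinj1
    · intro j
      rw [wall_take cs _ p j (fin_take p _ j).2]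
      exact g.wall_not_start hC _ (hsplit1 _ (fin_take p _ j).1)
    · intro j hj
      have h1 := hbot _ hj
      rw [wall_take cs _ p j (fin_take p _ j).2] at h1
      apply hwall1 ⟨j.1, (fin_take p _ j).2⟩
      have h2 := congrArg (fun z => cs.wordProd ((letters g.cross).take p) * z *
        (cs.wordProd ((letters g.cross).take p))⁻¹) h1
      simpa [mul_assoc] using h2
  have hmin2 : IsMinimal cs ∅ T (cs.wordProd ((letters g.cross).drop p)) := by
    apply isMinimal_of_wall cs hinj2
    · intro j hj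
      apply hwall1 ⟨p + j.1, fin_drop p _ j⟩
      rw [wall_drop cs _ p j (fin_drop p _ j), hbot _ hj]
      simp
    · intro j hj
      have h1 := hsplit2 ⟨p + j.1, fin_drop p _ j⟩ (by simp)
      apply g.wall_not_end hC ⟨p + j.1, fin_drop p _ j⟩ (by linarith)
      rw [wall_drop cs _ p j (fin_drop p _ j), hword]
      convert hj using 1
      group
  have htake : letters (g.cross.take p) = (letters g.cross).take p := by simp [letters, List.map_take]
  have hdrop : letters (g.cross.drop p) = (letters g.cross).drop p := by simp [letters, List.map_drop]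
  have hlet : letters ((g.cross.drop p).reverse.map fun p => (p.1, -p.2)) =
      ((letters g.cross).drop p).reverse := by rw [letters_reverse, hdrop]
  obtain ⟨z₁, hz₁, z₂, hz₂, hz⟩ := double_coset cs (T₁ := T) (T₂ := ∅) (l := g.cross.take p)
    (l' := (g.cross.drop p).reverse.map fun p => (p.1, -p.2))
    (fun q hq => g.exp_ne q (List.mem_of_mem_take hq))
    (by
      intro q hq
      obtain ⟨r, hr, rfl⟩ := List.mem_map.1 hq
      have := g.exp_ne r (List.mem_of_mem_drop (List.mem_reverse.1 hr))
      simpa using this)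
    (by rw [htake]; exact isReduced_of_nodup cs (nodup_of_wall_inj cs hinj1))
    (by
      rw [hlet, isReduced_reverse_iff]
      exact isReduced_of_nodup cs (nodup_of_wall_inj cs hinj2))
    (by rw [htake]; exact hmin1)
    (by
      rw [hlet, wordProd_reverse]
      intro z₁ hz₁ z₂ hz₂
      have h1 := hmin2 z₂⁻¹ (inv_mem hz₂) z₁⁻¹ (inv_mem hz₁)
      rw [← length_inv cs (z₁ * _ * z₂), length_inv]
      simpa [mul_inv_rev, mul_assoc] using h1)
    (h₁ := (artinWord M g.cross)⁻¹) (h₂ := 1) (inv_mem hg) (one_mem _)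
    (by
      rw [artinWord_inv, mul_one, inv_mul_eq_iff_eq_mul, eq_mul_inv_iff_mul_eq, ← artinWord_append,
        List.take_append_drop])
  rw [hbot z₂ hz₂, mul_one, hlet, wordProd_reverse, htake, eq_inv_iff_mul_eq_one, mul_assoc, ← hword] at hz
  have hw : cs.wordProd (letters g.cross) ∈ Wpar cs T := by
    rw [← inv_eq_of_mul_eq_one_right hz]
    exact inv_mem hz₁
  have hx := g.end_pt
  rw [he, fix_par cs g.start_face hw] at hx
  have h1 : Real.cos g.len = 1 := by
    rw [← g.inner_circlePt, ← hx, real_inner_self_eq_norm_sq, g.norm_x]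
    norm_num
  have h2 := (Real.cos_eq_one_iff_of_lt_of_lt (by linarith [g.len_pos]) hcon).1 h1
  linarith [g.len_pos]

end Pool.Agent.Lib.MP_f146a9_al
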