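import Pool.Agent.Lib.MP_f146a9_al.Braid

/-!
MP_f146a9_al. The leading term of the image of a product of powers along a reduced word.
-/

namespace Pool.Agent.Lib.MP_f146a9_al

open CoxeterSystem Pool.Agent.Lib.MP_529e02_al

variable {B W : Type*} [Group W] {M : CoxeterMatrix B} (cs : CoxeterSystem M W)

theorem artinWord_nil : artinWord M ([] : List (B × ℤ)) = 1 := by simp [artinWord]

theorem artinWord_cons (p : B × ℤ) (l : List (B × ℤ)) :
    artinWord M (p :: l) = (PresentedGroup.of p.1 : ArtinGroup M) ^ p.2 * artinWord M l := by
  simp [artinWord]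

theorem artinWord_append (l l' : List (B × ℤ)) :
    artinWord M (l ++ l') = artinWord M l * artinWord M l' := by
  simp [artinWord]

/-- the vector `g e₁` of the module -/
noncomputable def vec (g : ArtinGroup M) : W →₀ ℤ :=
  ((rep cs g : (Module.End ℤ (W →₀ ℤ))ˣ) : Module.End ℤ (W →₀ ℤ)) (Finsupp.single 1 1)

theorem vec_cons (p : B × ℤ) (l : List (B × ℤ)) (v : W) : vec cs (artinWord M (p :: l)) v =
    vec cs (artinWord M l) v - p.2 * (eps cs p.1 v *
      (vec cs (artinWord M l) v - vec cs (artinWord M l) (cs.simple p.1 * v))) := by
  have h1 : vec cs (artinWord M (p :: l)) =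
      vec cs (artinWord M l) - p.2 • opL cs p.1 (vec cs (artinWord M l)) := by
    rw [vec, artinWord_cons, map_mul, map_zpow, rep_of, Units.val_mul, Module.End.mul_apply, unitA_zpow]
    rfl
  rw [h1, Finsupp.sub_apply, Finsupp.smul_apply, opL_apply, smul_eq_mul]

theorem reduced_tail {i : B} {ω : List B} (h : cs.IsReduced (i :: ω)) : cs.IsReduced ω := by
  simpa using h.drop 1

/-- the leading term -/
theorem vec_lead (l : List (B × ℤ)) (hr : cs.IsReduced (letters l)) :
    vec cs (artinWord M l) (cs.wordProd (letters l)) = (-1) ^ l.length * (l.map Prod.snd).prod ∧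
      ∀ v, l.length ≤ cs.length v → v ≠ cs.wordProd (letters l) → vec cs (artinWord M l) v = 0 := by
  induction l with
  | nil =>
    have h1 : vec cs (artinWord M ([] : List (B × ℤ))) = Finsupp.single 1 1 := by
      rw [vec, artinWord_nil, map_one]
      rfl
    rw [h1]
    constructor
    · simp [letters]
    · intro v _ hv
      have hv' : v ≠ 1 := by simpa [letters] using hv
      exact Finsupp.single_eq_of_ne hv'
  | cons p l ih =>
    have hr' : cs.IsReduced (p.1 :: letters l) := hr
    obtain ⟨ih1, ih2⟩ := ih (reduced_tail cs hr')
    have hlen : (letters l).length = l.length := by simp [letters]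
    have hl1 : cs.length (cs.wordProd (letters l)) = l.length := by
      rw [(reduced_tail cs hr').eq, hlen]
    have hl2 : cs.length (cs.simple p.1 * cs.wordProd (letters l)) = l.length + 1 := by
      rw [← wordProd_cons, hr'.eq, List.length_cons, hlen]
    have hw : cs.wordProd (letters (p :: l)) = cs.simple p.1 * cs.wordProd (letters l) :=
      wordProd_cons cs _ _
    constructor
    · rw [hw, vec_cons, simple_mul_simple_cancel_left, ih1]
      have h1 : vec cs (artinWord M l) (cs.simple p.1 * cs.wordProd (letters l)) = 0 := by
        apply ih2 _ (by omega)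
        intro h
        rw [h] at hl2
        omega
      have h2 : eps cs p.1 (cs.simple p.1 * cs.wordProd (letters l)) = -1 := by
        unfold eps
        rw [simple_mul_simple_cancel_left, if_pos (by omega)]
      rw [h1, h2, List.length_cons, List.map_cons, List.prod_cons, pow_succ]
      ring
    · intro v hv hne
      rw [List.length_cons] at hv
      rw [hw] at hne
      have h1 : vec cs (artinWord M l) v = 0 := by
        apply ih2 _ (by omega)
        rintro rfl
        omega
      have h2 : vec cs (artinWord M l) (cs.simple p.1 * v) = 0 := by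
        apply ih2
        · rcases cs.length_simple_mul v p.1 with h | h <;> omega
        · intro h
          apply hne
          rw [← h, simple_mul_simple_cancel_left]
      rw [vec_cons, h1, h2]
      ring

/-- products of nonzero powers along reduced words determine the element of the Coxeter group and the
product of the exponents -/
theorem reduced_unique {l l' : List (B × ℤ)} (hl : ∀ p ∈ l, p.2 ≠ 0) (hl' : ∀ p ∈ l', p.2 ≠ 0)
    (hr : cs.IsReduced (letters l)) (hr' : cs.IsReduced (letters l'))
    (h : artinWord M l = artinWord M l') :
    cs.wordProd (letters l) = cs.wordProd (letters l') ∧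
      (l.map Prod.snd).prod = (l'.map Prod.snd).prod := by
  obtain ⟨h1, h2⟩ := vec_lead cs l hr
  obtain ⟨h1', h2'⟩ := vec_lead cs l' hr'
  have hlen : cs.length (cs.wordProd (letters l)) = l.length := by
    rw [hr.eq]; simp [letters]
  have hlen' : cs.length (cs.wordProd (letters l')) = l'.length := by
    rw [hr'.eq]; simp [letters]
  have hne : (l.map Prod.snd).prod ≠ 0 := by
    apply List.prod_ne_zero
    intro hmem
    obtain ⟨p, hp, hp2⟩ := List.mem_map.1 hmem
    exact hl p hp hp2
  have hne' : (l'.map Prod.snd).prod ≠ 0 := by
    apply List.prod_ne_zero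
    intro hmem
    obtain ⟨p, hp, hp2⟩ := List.mem_map.1 hmem
    exact hl' p hp hp2
  have hpow : ∀ n : ℕ, ((-1 : ℤ)) ^ n ≠ 0 := fun n => pow_ne_zero n (by norm_num)
  have key : cs.wordProd (letters l) = cs.wordProd (letters l') := by
    by_contra hcon
    rcases le_total l'.length l.length with h3 | h3
    · have h4 := h2' (cs.wordProd (letters l)) (by omega) hcon
      rw [← h, h1] at h4
      exact mul_ne_zero (hpow _) hne h4
    · have h4 := h2 (cs.wordProd (letters l')) (by omega) (Ne.symm hcon)
      rw [h, h1'] at h4
      exact mul_ne_zero (hpow _) hne' h4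
  refine ⟨key, ?_⟩
  have h5 : l.length = l'.length := by rw [← hlen, ← hlen', key]
  rw [← h, ← key, h1, ← h5] at h1'
  exact mul_left_cancel₀ (hpow _) h1'

end Pool.Agent.Lib.MP_f146a9_al
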