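import Pool.Agent.Lib.MP_529e02_al.Cox
import Pool.Agent.Lib.MP_f146a9_al.Defs

/-!
MP_f146a9_al. The operators of the Hecke algebra at `q = -1` on the group ring.
-/

namespace Pool.Agent.Lib.MP_f146a9_al

open CoxeterSystem Pool.Agent.Lib.MP_529e02_al

variable {B W : Type*} [Group W] {M : CoxeterMatrix B} (cs : CoxeterSystem M W)

theorem side_lt (w : W) (i : B) (h : cs.length (cs.simple i * w) < cs.length w) :
    side cs w (cs.simple i) = 1 := by
  classical
  obtain ⟨ω, h1, h2⟩ := cs.exists_isReduced (cs.simple i * w)
  have hw : w = cs.wordProd (i :: ω) := by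
    rw [wordProd_cons, ← h2]; simp
  have h3 : cs.length (cs.simple i * w) = ω.length := by rw [h2]; exact h1.eq
  have hr : cs.IsReduced (i :: ω) := by
    change cs.length _ = _
    rw [← hw, List.length_cons, ← h3]
    rcases cs.length_simple_mul w i with h4 | h4 <;> omega
  rw [hw, side_word, List.count_eq_one_of_mem hr.nodup_leftInvSeq]
  · simp
  · simp [leftInvSeq]

theorem side_gt (w : W) (i : B) (h : ¬ cs.length (cs.simple i * w) < cs.length w) :
    side cs w (cs.simple i) = 0 := by
  have h1 : side cs (cs.simple i * w) (cs.simple i) = 1 := by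
    apply side_lt
    rw [simple_mul_simple_cancel_left]
    have := cs.length_simple_mul_ne w i
    omega
  rw [side_refl_mul cs (cs.isReflection_simple i)] at h1
  simpa using h1

/-- `-1` if the generator shortens the element, `1` otherwise -/
noncomputable def eps (i : B) (w : W) : ℤ := if cs.length (cs.simple i * w) < cs.length w then -1 else 1

theorem eps_simple_mul (i : B) (w : W) : eps cs i (cs.simple i * w) = -eps cs i w := by
  unfold eps
  rw [simple_mul_simple_cancel_left]
  have := cs.length_simple_mul_ne w i
  split_ifs <;> omega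

theorem eps_mul_self (i : B) (w : W) : eps cs i w * eps cs i w = 1 := by
  unfold eps
  split_ifs <;> norm_num

theorem eps_of_side {i : B} {v w : W} (h : side cs v (cs.simple i) = side cs w (cs.simple i)) :
    eps cs i v = eps cs i w := by
  unfold eps
  by_cases h1 : cs.length (cs.simple i * v) < cs.length v <;>
    by_cases h2 : cs.length (cs.simple i * w) < cs.length w
  · simp [h1, h2]
  · rw [side_lt cs v i h1, side_gt cs w i h2] at h
    exact absurd h (by decide)
  · rw [side_gt cs v i h1, side_lt cs w i h2] at h
    exact absurd h (by decide)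
  · simp [h1, h2]

theorem eps_mul_simple {i j : B} {w : W} (h : cs.simple i * w ≠ w * cs.simple j) :
    eps cs i (w * cs.simple j) = eps cs i w := by
  apply eps_of_side
  rw [side_mul_simple, if_neg h, add_zero]

/-- the left operator -/
noncomputable def opL (i : B) : (W →₀ ℤ) →ₗ[ℤ] (W →₀ ℤ) :=
  Finsupp.linearCombination ℤ fun w => eps cs i w • (Finsupp.single w 1 + Finsupp.single (cs.simple i * w) 1)

/-- the right operator -/
noncomputable def opR (j : B) : (W →₀ ℤ) →ₗ[ℤ] (W →₀ ℤ) :=
  Finsupp.linearCombination ℤ fun w =>
    eps cs j w⁻¹ • (Finsupp.single w 1 + Finsupp.single (w * cs.simple j) 1)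

theorem opL_single (i : B) (w : W) : opL cs i (Finsupp.single w 1) =
    eps cs i w • (Finsupp.single w 1 + Finsupp.single (cs.simple i * w) 1) := by
  simp [opL]

theorem opR_single (j : B) (w : W) : opR cs j (Finsupp.single w 1) =
    eps cs j w⁻¹ • (Finsupp.single w 1 + Finsupp.single (w * cs.simple j) 1) := by
  simp [opR]

omit [Group W] in
theorem end_ext {f g : Module.End ℤ (W →₀ ℤ)}
    (h : ∀ w, f (Finsupp.single w 1) = g (Finsupp.single w 1)) : f = g := by
  apply Finsupp.lhom_ext'
  intro w
  apply LinearMap.ext_ring
  exact h w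

theorem opL_sq (i : B) : (opL cs i : Module.End ℤ (W →₀ ℤ)) * opL cs i = 0 := by
  apply end_ext
  intro w
  rw [Module.End.mul_apply, opL_single, map_smul, map_add, opL_single, opL_single,
    simple_mul_simple_cancel_left, eps_simple_mul]
  simp only [neg_smul, LinearMap.zero_apply]
  rw [add_comm (Finsupp.single (cs.simple i * w) 1), add_neg_cancel, smul_zero]

theorem opL_comm_opR (i j : B) : (opL cs i : Module.End ℤ (W →₀ ℤ)) * opR cs j = opR cs j * opL cs i := by
  apply end_ext
  intro w
  rw [Module.End.mul_apply, Module.End.mul_apply, opL_single, opR_single, map_smul, map_smul, map_add,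
    map_add, opL_single, opL_single, opR_single, opR_single, mul_inv_rev, inv_simple]
  by_cases h : cs.simple i * w = w * cs.simple j
  · have h1 : w⁻¹ * cs.simple i = cs.simple j * w⁻¹ := by
      have := congrArg (·⁻¹) h
      simpa [mul_inv_rev] using this
    rw [h1, eps_simple_mul, ← h, eps_simple_mul, simple_mul_simple_cancel_left, h,
      simple_mul_simple_cancel_right]
    simp only [neg_smul, smul_add, smul_neg, smul_smul]
    abel
  · have h1 : cs.simple j * w⁻¹ ≠ w⁻¹ * cs.simple i := by
      intro h1
      apply h
      have := congrArg (·⁻¹) h1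
      simpa [mul_inv_rev] using this.symm
    rw [eps_mul_simple cs h, eps_mul_simple cs h1, mul_assoc]
    simp only [smul_add, smul_smul, mul_comm (eps cs j w⁻¹)]
    abel

theorem opL_apply (i : B) (x : W →₀ ℤ) (v : W) :
    opL cs i x v = eps cs i v * (x v - x (cs.simple i * v)) := by
  induction x using Finsupp.induction_linear with
  | zero => simp
  | add f g hf hg => rw [map_add, Finsupp.add_apply, hf, hg, Finsupp.add_apply, Finsupp.add_apply]; ring
  | single w a =>
    classical
    have h1 : Finsupp.single w a = a • Finsupp.single w (1 : ℤ) := by simp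
    rw [h1, map_smul, opL_single]
    simp only [Finsupp.smul_apply, Finsupp.add_apply, Finsupp.single_apply, smul_eq_mul]
    have h2 : (cs.simple i * w = v) ↔ (w = cs.simple i * v) := by
      constructor
      · rintro rfl; simp
      · rintro rfl; simp
    rw [if_congr h2 rfl rfl]
    by_cases h3 : w = cs.simple i * v
    · subst h3
      rw [eps_simple_mul]
      have h4 : cs.simple i * v ≠ v := by
        intro h4
        exact cs.length_simple_mul_ne v i (by rw [h4])
      simp [h4, mul_comm]
    · by_cases h4 : w = v
      · subst h4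
        simp [h3, mul_comm]
      · simp [h3, h4]

end Pool.Agent.Lib.MP_f146a9_al
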