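import Pool.Agent.Lib.MP_f146a9_al.Defs

/-!
MP_f146a9_al. Paths of the Deligne complex, as chains of points, and transversal paths.
-/

namespace Pool.Agent.Lib.MP_f146a9_al

/-- The length of the path which starts at the point `x` of the chamber `K`, goes inside the chamber to the
point `p₁`, changes there to the chamber `h₁ K`, goes inside it to the point `p₂`, changes there to the
chamber `h₁ h₂ K`, and so on, up to the point `y` of the last chamber, for the list
`[(p₁, h₁), (p₂, h₂), ...]`; all chambers are copies of `K`, a subset of `X`, and the length of a piece is
the distance in `X` -/
noncomputable def pathLen {X A : Type*} [MetricSpace X] : X → List (X × A) → X → ℝ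
  | x, [], y => dist x y
  | x, q :: c, y => dist x q.1 + pathLen q.1 c y

/-- the changes of chambers are allowed: at `p` from `a K` to `a h K` with `h` in `A_T`, for the set `T` of
all generators which fix `p` -/
def IsPath {B W X : Type*} [Group W] [MulAction W X] {M : CoxeterMatrix B} (cs : CoxeterSystem M W)
    (c : List (X × ArtinGroup M)) : Prop :=
  ∀ q ∈ c, q.2 ∈ Apar M {i | cs.simple i • q.1 = q.1}

/-- a crossing of a face: a point `before` of the chamber on the piece of the path before the crossing, the
point `pt` of the face where the chamber is changed, and the list `word = [(i₁, k₁), ..., (iₙ, kₙ)]`: the new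
chamber is `a i₁ ^ k₁ ⋯ iₙ ^ kₙ K` -/
structure Crossing (B X : Type*) where
  /-- a point of the chamber before the crossing -/
  before : X
  /-- the point of the face -/
  pt : X
  /-- the types of the walls and the exponents -/
  word : List (B × ℤ)

/-- the path of a list of crossings -/
def crossPath {B X : Type*} (M : CoxeterMatrix B) (c : List (Crossing B X)) : List (X × ArtinGroup M) :=
  c.flatMap fun r => [(r.before, 1), (r.pt, artinWord M r.word)]

/-- the word of a list of crossings -/
def crossWord {B X : Type*} (c : List (Crossing B X)) : List (B × ℤ) := c.flatMap Crossing.word

/-- The crossings are straight: the letters of `word` are generators which fix the point of the face, they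
form a reduced word, the exponents are not zero, and the walls crossed at `pt` (those of the reflections
`s₁ ⋯ sⱼ ⋯ s₁`) do not contain `before`. For a face of codimension one, of type `i`, this says that the path
comes from outside the face and changes from `a K` to `a i ^ k K` with `k ≠ 0`. -/
def IsStraight {B W X : Type*} [Group W] [MulAction W X] {M : CoxeterMatrix B}
    (cs : CoxeterSystem M W) (c : List (Crossing B X)) : Prop :=
  ∀ r ∈ c, cs.IsReduced (letters r.word) ∧
    (∀ p ∈ r.word, cs.simple p.1 • r.pt = r.pt ∧ p.2 ≠ 0) ∧
    ∀ j, wall cs (letters r.word) j • r.before ≠ r.before

/-- points at distance at most `r` are joined by at most one geodesic: there is at most one point between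
them at given distances -/
def UniqueGeod (X : Type*) [MetricSpace X] (r : ℝ) : Prop :=
  ∀ a b m m' : X, dist a b ≤ r → dist a m + dist m b = dist a b → dist a m' + dist m' b = dist a b →
    dist a m = dist a m' → m = m'

end Pool.Agent.Lib.MP_f146a9_al
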