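import Pool.Agent.Lib.MP_f146a9_al.PathDefs
import Pool.Agent.Lib.MP_f146a9_al.Cosets

/-!
MP_f146a9_al. Transversal geodesics are shortest paths.
-/

namespace Pool.Agent.Lib.MP_f146a9_al

open CoxeterSystem Pool.Agent.Lib.MP_529e02_al

variable {B W X : Type*} [Group W] [MetricSpace X] [MulAction W X] [IsIsometricSMul W X]
  {M : CoxeterMatrix B} (cs : CoxeterSystem M W)

omit [MetricSpace X] [IsIsometricSMul W X] in
theorem smul_of_mem {T : Set B} {p : X} (hT : ∀ i ∈ T, cs.simple i • p = p) {z : W}
    (hz : z ∈ Wpar cs T) : z • p = p := by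
  induction hz using Subgroup.closure_induction with
  | mem z hz =>
    obtain ⟨i, hi, rfl⟩ := hz
    exact hT i hi
  | one => exact one_smul W p
  | mul a b _ _ ha hb => rw [mul_smul, hb, ha]
  | inv a _ ha => rw [inv_smul_eq_iff, ha]

/-- the bound by the support -/
theorem dist_le_of_vec (c : List (X × ArtinGroup M)) (hc : IsPath cs c) (x y : X) (w : W)
    (hw : vec cs (c.map Prod.snd).prod w ≠ 0) : dist x (w • y) ≤ pathLen x c y := by
  induction c generalizing x w with
  | nil =>
    have h1 : w = 1 := by
      by_contra hne
      apply hw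
      have h2 : vec cs (([] : List (X × ArtinGroup M)).map Prod.snd).prod = Finsupp.single 1 1 := by
        rw [List.map_nil, List.prod_nil, vec, map_one]
        rfl
      rw [h2]
      exact Finsupp.single_eq_of_ne hne
    rw [h1, one_smul]
    exact le_rfl
  | cons q c ih =>
    have hq : q.2 ∈ Apar M {i | cs.simple i • q.1 = q.1} := hc q (by simp)
    have hc' : IsPath cs c := fun r hr => hc r (List.mem_cons_of_mem _ hr)
    have h1 : vec cs ((q :: c).map Prod.snd).prod =
        ((rep cs q.2 : (Module.End ℤ (W →₀ ℤ))ˣ) : Module.End ℤ (W →₀ ℤ))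
          (vec cs (c.map Prod.snd).prod) := by
      rw [List.map_cons, List.prod_cons, vec, map_mul, Units.val_mul, Module.End.mul_apply]
      rfl
    have h2 : ∃ z ∈ Wpar cs {i | cs.simple i • q.1 = q.1}, vec cs (c.map Prod.snd).prod (z * w) ≠ 0 := by
      by_contra hcon
      push Not at hcon
      apply hw
      rw [h1]
      refine (rep_vanish cs hq (S := {v | ∀ z ∈ Wpar cs {i | cs.simple i • q.1 = q.1},
        vec cs (c.map Prod.snd).prod (z * v) = 0}) ?_ _ ?_).1 w hcon
      · intro v hv i hi z hz
        rw [← mul_assoc]
        exact hv _ (mul_mem hz (Subgroup.subset_closure ⟨i, hi, rfl⟩))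
      · intro v hv
        have := hv 1 (one_mem _)
        rwa [one_mul] at this
    obtain ⟨z, hz, h3⟩ := h2
    have h4 := ih hc' q.1 (z * w) h3
    have h5 : z • q.1 = q.1 := smul_of_mem cs (fun i hi => hi) hz
    have h6 : dist q.1 (w • y) = dist q.1 ((z * w) • y) := by
      nth_rw 2 [← h5]
      rw [mul_smul, dist_smul]
    calc dist x (w • y) ≤ dist x q.1 + dist q.1 (w • y) := dist_triangle _ _ _
      _ ≤ dist x q.1 + pathLen q.1 c y := by rw [h6]; linarith

/-- the element of the Coxeter group of a list of crossings -/
noncomputable def crossElt (c : List (Crossing B X)) : W := cs.wordProd (letters (crossWord c))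

/-- the length of a list of crossings -/
noncomputable def crossLen (M : CoxeterMatrix B) (x : X) (c : List (Crossing B X)) (y : X) : ℝ :=
  pathLen x (crossPath M c) y

theorem crossLen_cons (x : X) (r : Crossing B X) (c : List (Crossing B X)) (y : X) :
    crossLen M x (r :: c) y = dist x r.before + (dist r.before r.pt + crossLen M r.pt c y) := rfl

omit [MetricSpace X] [MulAction W X] [IsIsometricSMul W X] in
theorem letters_crossWord_cons (r : Crossing B X) (c : List (Crossing B X)) :
    letters (crossWord (r :: c)) = letters r.word ++ letters (crossWord c) := by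
  simp [letters, crossWord]

omit [MetricSpace X] [MulAction W X] [IsIsometricSMul W X] in
theorem crossElt_cons (r : Crossing B X) (c : List (Crossing B X)) :
    crossElt cs (r :: c) = cs.wordProd (letters r.word) * crossElt cs c := by
  rw [crossElt, letters_crossWord_cons, wordProd_append]
  rfl

omit [MetricSpace X] [MulAction W X] [IsIsometricSMul W X] in
theorem crossElt_nil : crossElt cs ([] : List (Crossing B X)) = 1 := wordProd_nil cs

theorem crossLen_split (x : X) (c₁ : List (Crossing B X)) (r : Crossing B X) (c₂ : List (Crossing B X))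
    (y : X) : crossLen M x (c₁ ++ r :: c₂) y =
      crossLen M x c₁ r.before + (dist r.before r.pt + crossLen M r.pt c₂ y) := by
  induction c₁ generalizing x with
  | nil => rfl
  | cons q c₁ ih =>
    rw [List.cons_append, crossLen_cons, ih, crossLen_cons]
    ring

omit [MetricSpace X] [MulAction W X] [IsIsometricSMul W X] in
theorem crossElt_split (c₁ : List (Crossing B X)) (r : Crossing B X) (c₂ : List (Crossing B X)) :
    crossElt cs (c₁ ++ r :: c₂) = crossElt cs c₁ * (cs.wordProd (letters r.word) * crossElt cs c₂) := by
  induction c₁ with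
  | nil => rw [List.nil_append, crossElt_nil, one_mul, crossElt_cons]
  | cons q c₁ ih => rw [List.cons_append, crossElt_cons, ih, crossElt_cons, mul_assoc]

omit [MetricSpace X] [IsIsometricSMul W X] in
theorem wordProd_smul {ω : List B} {p : X} (h : ∀ i ∈ ω, cs.simple i • p = p) :
    cs.wordProd ω • p = p := by
  induction ω with
  | nil => rw [wordProd_nil, one_smul]
  | cons i ω ih =>
    rw [wordProd_cons, mul_smul, ih (fun j hj => h j (List.mem_cons_of_mem _ hj)), h i (by simp)]

omit [MetricSpace X] [IsIsometricSMul W X] in
theorem leftInvSeq_smul {ω : List B} {p : X} (h : ∀ i ∈ ω, cs.simple i • p = p) {t : W}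
    (ht : t ∈ cs.leftInvSeq ω) : t • p = p := by
  induction ω generalizing t with
  | nil => simp at ht
  | cons i ω ih =>
    have hi := h i (by simp)
    rw [leftInvSeq, List.mem_cons] at ht
    rcases ht with rfl | ht
    · exact hi
    · obtain ⟨t', ht', rfl⟩ := List.mem_map.1 ht
      have h1 := ih (fun j hj => h j (List.mem_cons_of_mem _ hj)) ht'
      rw [MulAut.conj_apply, inv_simple, mul_smul, mul_smul, hi, h1, hi]

omit [MetricSpace X] [IsIsometricSMul W X] in
theorem letters_fix {r : Crossing B X} {c : List (Crossing B X)} (hc : IsStraight cs c) (hr : r ∈ c) :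
    ∀ i ∈ letters r.word, cs.simple i • r.pt = r.pt := by
  intro i hi
  obtain ⟨p, hp, rfl⟩ := List.mem_map.1 hi
  exact ((hc r hr).2.1 p hp).1

theorem dist_smul_right {z : W} {p : X} (h : z • p = p) (q : X) : dist p (z • q) = dist p q := by
  nth_rw 1 [← h]
  rw [dist_smul]

theorem dist_le_crossLen (c : List (Crossing B X)) (hc : IsStraight cs c) (x y : X) :
    dist x (crossElt cs c • y) ≤ crossLen M x c y := by
  induction c generalizing x with
  | nil =>
    rw [crossElt_nil, one_smul]
    exact le_rfl
  | cons r c ih =>
    have h1 : cs.wordProd (letters r.word) • r.pt = r.pt :=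
      wordProd_smul cs (letters_fix cs hc (by simp))
    have h2 := ih (fun q hq => hc q (List.mem_cons_of_mem _ hq)) r.pt
    have h3 := dist_smul_right h1 (crossElt cs c • y)
    rw [← mul_smul] at h3
    rw [crossElt_cons, crossLen_cons]
    calc dist x ((cs.wordProd (letters r.word) * crossElt cs c) • y)
        ≤ dist x r.before + dist r.before ((cs.wordProd (letters r.word) * crossElt cs c) • y) :=
          dist_triangle _ _ _
      _ ≤ dist x r.before + (dist r.before r.pt +
          dist r.pt ((cs.wordProd (letters r.word) * crossElt cs c) • y)) := by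
          linarith [dist_triangle r.before r.pt ((cs.wordProd (letters r.word) * crossElt cs c) • y)]
      _ ≤ _ := by rw [h3]; linarith

theorem crossLen_nonneg (x : X) (c : List (Crossing B X)) (y : X) : 0 ≤ crossLen M x c y := by
  induction c generalizing x with
  | nil => exact dist_nonneg
  | cons r c ih =>
    rw [crossLen_cons]
    have := ih r.pt
    positivity

omit [MetricSpace X] [MulAction W X] [IsIsometricSMul W X] in
theorem leftInvSeq_append (ω ω' : List B) : cs.leftInvSeq (ω ++ ω') =
    cs.leftInvSeq ω ++ (cs.leftInvSeq ω').map (MulAut.conj (cs.wordProd ω)) := by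
  induction ω with
  | nil => simp
  | cons i ω ih =>
    rw [List.cons_append, leftInvSeq, ih, leftInvSeq, List.map_append, List.map_map, wordProd_cons]
    simp only [List.cons_append, List.cons.injEq, true_and]
    congr 1
    apply List.map_congr_left
    intro t _
    rw [map_mul]
    rfl

omit [MetricSpace X] [MulAction W X] [IsIsometricSMul W X] in
/-- the reflections of the walls which are crossed -/
theorem exists_split {c : List (Crossing B X)} {t : W}
    (ht : t ∈ cs.leftInvSeq (letters (crossWord c))) : ∃ c₁ r c₂, c = c₁ ++ r :: c₂ ∧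
      ∃ t' ∈ cs.leftInvSeq (letters r.word), t = crossElt cs c₁ * t' * (crossElt cs c₁)⁻¹ := by
  induction c generalizing t with
  | nil => simp [crossWord, letters] at ht
  | cons r c ih =>
    rw [letters_crossWord_cons, leftInvSeq_append, List.mem_append] at ht
    rcases ht with ht | ht
    · refine ⟨[], r, c, rfl, t, ht, ?_⟩
      rw [crossElt_nil]
      simp
    · obtain ⟨t', ht', rfl⟩ := List.mem_map.1 ht
      obtain ⟨c₁, q, c₂, rfl, t'', h1, h2⟩ := ih ht'
      refine ⟨r :: c₁, q, c₂, rfl, t'', h1, ?_⟩
      rw [crossElt_cons, h2, MulAut.conj_apply]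
      group

omit [MetricSpace X] [MulAction W X] [IsIsometricSMul W X] in
theorem exists_wall {ω : List B} {t : W} (ht : t ∈ cs.leftInvSeq ω) : ∃ j, wall cs ω j = t := by
  obtain ⟨n, hn, hn'⟩ := List.getElem_of_mem ht
  have hn2 : n < ω.length := by rwa [length_leftInvSeq] at hn
  refine ⟨⟨n, hn2⟩, ?_⟩
  rw [← hn', getElem_leftInvSeq, wall]
  rfl

/-- the walls crossed by a straight geodesic do not contain its starting point -/
theorem not_fix (c : List (Crossing B X)) (hc : IsStraight cs c) (x y : X)
    (hgeo : dist x (crossElt cs c • y) = crossLen M x c y) (hU : UniqueGeod X (crossLen M x c y))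
    {t : W} (ht : t ∈ cs.leftInvSeq (letters (crossWord c))) : t • x ≠ x := by
  intro htx
  obtain ⟨c₁, q, c₂, hsplit, t', ht', htt⟩ := exists_split cs ht
  set P : X := crossElt cs c₁ • q.pt with hP
  set Q : X := crossElt cs c₁ • q.before with hQ
  have hqc : q ∈ c := by rw [hsplit]; simp
  have hq : cs.wordProd (letters q.word) • q.pt = q.pt := wordProd_smul cs (letters_fix cs hc hqc)
  have hconj : ∀ p : X, t • (crossElt cs c₁ • p) = crossElt cs c₁ • (t' • p) := by
    intro p
    rw [← mul_smul, ← mul_smul, htt]
    congr 1
    group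
  have hPfix : t • P = P := by
    rw [hP, hconj, leftInvSeq_smul cs (letters_fix cs hc hqc) ht']
  have htr₁ : IsStraight cs c₁ := fun p hp => hc p (by rw [hsplit]; simp [hp])
  have htr₂ : IsStraight cs c₂ := fun p hp => hc p (by rw [hsplit]; simp [hp])
  have e1 : crossLen M x c y =
      crossLen M x c₁ q.before + (dist q.before q.pt + crossLen M q.pt c₂ y) := by
    rw [hsplit, crossLen_split]
  have hxQ : dist x Q ≤ crossLen M x c₁ q.before := dist_le_crossLen cs c₁ htr₁ x q.before
  have hQP : dist Q P = dist q.before q.pt := by rw [hQ, hP, dist_smul]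
  -- the distance to `P`
  have hge : crossLen M x c₁ q.before + dist q.before q.pt ≤ dist x P := by
    have e2 : crossElt cs c = crossElt cs c₁ * (cs.wordProd (letters q.word) * crossElt cs c₂) := by
      rw [hsplit, crossElt_split]
    have e3 := dist_triangle x P (crossElt cs c • y)
    have e4 : dist P (crossElt cs c • y) = dist q.pt (crossElt cs c₂ • y) := by
      rw [hP, e2, mul_smul, dist_smul, mul_smul]
      exact dist_smul_right hq _
    have e5 := dist_le_crossLen cs c₂ htr₂ q.pt y
    rw [hgeo, e1, e4] at e3
    linarith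
  have hbet : dist x Q + dist Q P = dist x P :=
    le_antisymm (by rw [hQP]; linarith) (dist_triangle _ _ _)
  have hdP : dist x P ≤ crossLen M x c y := by
    have e3 := crossLen_nonneg (M := M) q.pt c₂ y
    rw [← hbet, hQP]
    linarith
  have hs1 : dist x (t • Q) = dist x Q := dist_smul_right htx _
  have hs2 : dist (t • Q) P = dist Q P := by
    rw [dist_comm, dist_smul_right hPfix, dist_comm]
  have heq := hU x P Q (t • Q) hdP hbet (by rw [hs1, hs2, hbet]) hs1.symm
  obtain ⟨j, hj⟩ := exists_wall cs ht'
  apply (hc q hqc).2.2 j
  rw [hj]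
  rw [hQ, hconj] at heq
  exact smul_left_cancel _ heq.symm

/-- a straight path whose development is a geodesic has a reduced word -/
theorem reduced_of_geodesic (c : List (Crossing B X)) (hc : IsStraight cs c) (x y : X)
    (hgeo : dist x (crossElt cs c • y) = crossLen M x c y) (hU : UniqueGeod X (crossLen M x c y)) :
    cs.IsReduced (letters (crossWord c)) := by
  induction c generalizing x with
  | nil =>
    change cs.length _ = _
    simp [crossWord, letters]
  | cons r c ih =>
    have hc' : IsStraight cs c := fun q hq => hc q (List.mem_cons_of_mem _ hq)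
    have hr : cs.wordProd (letters r.word) • r.pt = r.pt :=
      wordProd_smul cs (letters_fix cs hc (by simp))
    have h3 := dist_smul_right hr (crossElt cs c • y)
    rw [← mul_smul] at h3
    -- the tail is geodesic
    have hgeo' : dist r.pt (crossElt cs c • y) = crossLen M r.pt c y := by
      apply le_antisymm (dist_le_crossLen cs c hc' _ _)
      rw [crossElt_cons, crossLen_cons] at hgeo
      have h4 := dist_triangle x r.before ((cs.wordProd (letters r.word) * crossElt cs c) • y)
      have h5 := dist_triangle r.before r.pt ((cs.wordProd (letters r.word) * crossElt cs c) • y)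
      rw [h3] at h5
      linarith
    have hlen : crossLen M r.pt c y ≤ crossLen M x (r :: c) y := by
      rw [crossLen_cons]
      have h1 : 0 ≤ dist x r.before := dist_nonneg
      have h2 : 0 ≤ dist r.before r.pt := dist_nonneg
      linarith
    have hU' : UniqueGeod X (crossLen M r.pt c y) :=
      fun a b m m' h => hU a b m m' (h.trans hlen)
    have hred := ih hc' r.pt hgeo' hU'
    rw [letters_crossWord_cons]
    apply isReduced_of_nodup
    rw [leftInvSeq_append]
    apply List.Nodup.append
    · exact IsReduced.nodup_leftInvSeq cs (hc r (by simp)).1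
    · exact (IsReduced.nodup_leftInvSeq cs hred).map (MulAut.conj (cs.wordProd (letters r.word))).injective
    · intro t ht ht'
      obtain ⟨t', h4, rfl⟩ := List.mem_map.1 ht'
      apply not_fix cs c hc' r.pt y hgeo' hU' h4
      have h5 := leftInvSeq_smul cs (letters_fix cs hc (by simp)) ht
      rw [MulAut.conj_apply, mul_smul, mul_smul] at h5
      have h6 : (cs.wordProd (letters r.word))⁻¹ • r.pt = r.pt := by
        rw [inv_smul_eq_iff, hr]
      rw [h6] at h5
      exact smul_left_cancel _ (h5.trans hr.symm)

omit [MetricSpace X] [MulAction W X] [IsIsometricSMul W X] in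
theorem prod_crossPath (c : List (Crossing B X)) :
    ((crossPath M c).map Prod.snd).prod = artinWord M (crossWord c) := by
  induction c with
  | nil => simp [crossPath, crossWord, artinWord]
  | cons r c ih =>
    have h1 : crossPath M (r :: c) = (r.before, 1) :: (r.pt, artinWord M r.word) :: crossPath M c := rfl
    have h2 : crossWord (r :: c) = r.word ++ crossWord c := rfl
    have h3 : artinWord M (r.word ++ crossWord c) = artinWord M r.word * artinWord M (crossWord c) := by
      simp [artinWord]
    rw [h1, h2, h3, ← ih]
    simp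

omit [MetricSpace X] [IsIsometricSMul W X] in
theorem isPath_crossPath (c : List (Crossing B X)) (hc : IsStraight cs c) :
    IsPath cs (crossPath M c) := by
  intro q hq
  obtain ⟨r, hr, hq⟩ := List.mem_flatMap.1 hq
  simp only [List.mem_cons, List.not_mem_nil, or_false] at hq
  rcases hq with rfl | rfl
  · exact one_mem _
  · change artinWord M r.word ∈ _
    unfold artinWord
    apply list_prod_mem
    intro g hg
    obtain ⟨p, hp, rfl⟩ := List.mem_map.1 hg
    have hmem : (PresentedGroup.of p.1 : ArtinGroup M) ∈ Apar M {i | cs.simple i • r.pt = r.pt} :=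
      Subgroup.subset_closure ⟨p.1, ((hc r hr).2.1 p hp).1, rfl⟩
    exact zpow_mem hmem _

/-- straight geodesics are shortest paths -/
theorem minimizing (c : List (Crossing B X)) (hc : IsStraight cs c) (x y : X)
    (hgeo : dist x (cs.wordProd (letters (crossWord c)) • y) = pathLen x (crossPath M c) y)
    (hU : UniqueGeod X (pathLen x (crossPath M c) y)) :
    IsLeast {L | ∃ c' : List (X × ArtinGroup M), IsPath cs c' ∧
      (c'.map Prod.snd).prod = artinWord M (crossWord c) ∧ pathLen x c' y = L}
      (pathLen x (crossPath M c) y) := by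
  refine ⟨⟨crossPath M c, isPath_crossPath cs c hc, prod_crossPath c, rfl⟩, ?_⟩
  rintro L ⟨c', hc', hprod, rfl⟩
  have hred := reduced_of_geodesic cs c hc x y hgeo hU
  rw [← hgeo]
  apply dist_le_of_vec cs c' hc' x y
  rw [hprod, (vec_lead cs (crossWord c) hred).1]
  apply mul_ne_zero (pow_ne_zero _ (by norm_num))
  apply List.prod_ne_zero
  intro hmem
  obtain ⟨p, hp, hp2⟩ := List.mem_map.1 hmem
  obtain ⟨r, hr, hpr⟩ := List.mem_flatMap.1 hp
  exact ((hc r hr).2.1 p hpr).2 hp2

end Pool.Agent.Lib.MP_f146a9_al
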