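import Pool.Agent.Lib.MP_f146a9_al.Paths

/-!
MP_f146a9_al. The multivalued retraction of the Deligne complex.
-/

namespace Pool.Agent.Lib.MP_f146a9_al

open CoxeterSystem Pool.Agent.Lib.MP_529e02_al

variable {B W X : Type*} [Group W] [MetricSpace X] [MulAction W X] [IsIsometricSMul W X]
  {M : CoxeterMatrix B} (cs : CoxeterSystem M W)

/-- the finite set of points of `X` attached to the point `y` of the chamber `g K` -/
def retr (g : ArtinGroup M) (y : X) : Set X := {p | ∃ w : W, vec cs g w ≠ 0 ∧ p = w • y}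

omit [MetricSpace X] [IsIsometricSMul W X] in
theorem retr_finite (g : ArtinGroup M) (y : X) : (retr cs g y).Finite := by
  have h1 : retr cs g y = (fun w : W => w • y) '' ((vec cs g).support : Set W) := by
    ext p
    constructor
    · rintro ⟨w, hw, rfl⟩
      exact ⟨w, by simpa using hw, rfl⟩
    · rintro ⟨w, hw, rfl⟩
      exact ⟨w, by simpa using hw, rfl⟩
  rw [h1]
  exact (Finset.finite_toSet _).image _

theorem vec_ne_zero (g : ArtinGroup M) : vec cs g ≠ 0 := by
  intro h
  have h1 := congrArg (fun v => (((rep cs g)⁻¹ : (Module.End ℤ (W →₀ ℤ))ˣ) : Module.End ℤ (W →₀ ℤ)) v) h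
  simp only [vec, map_zero] at h1
  rw [← Module.End.mul_apply, ← Units.val_mul, inv_mul_cancel] at h1
  have h2 := congrArg (fun v : W →₀ ℤ => v 1) h1
  simp at h2

omit [MetricSpace X] [IsIsometricSMul W X] in
theorem retr_nonempty (g : ArtinGroup M) (y : X) : (retr cs g y).Nonempty := by
  have h1 : ∃ w, vec cs g w ≠ 0 := by
    by_contra hcon
    push Not at hcon
    exact vec_ne_zero cs g (Finsupp.ext hcon)
  obtain ⟨w, hw⟩ := h1
  exact ⟨w • y, w, hw, rfl⟩

theorem vec_one : vec cs (1 : ArtinGroup M) = Finsupp.single 1 1 := by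
  rw [vec, map_one]
  rfl

omit [MetricSpace X] [IsIsometricSMul W X] in
theorem retr_one (y : X) : retr cs (1 : ArtinGroup M) y = {y} := by
  ext p
  rw [Set.mem_singleton_iff]
  constructor
  · rintro ⟨w, hw, rfl⟩
    rw [vec_one] at hw
    have h1 : w = 1 := by
      by_contra hne
      exact hw (Finsupp.single_eq_of_ne hne)
    rw [h1, one_smul]
  · rintro rfl
    exact ⟨1, by rw [vec_one]; simp, (one_smul W p).symm⟩

/-- the supports of `g` and `g h` -/
theorem support_right {T : Set B} {h : ArtinGroup M} (hh : h ∈ Apar M T) (g : ArtinGroup M) (w : W)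
    (hw : vec cs (g * h) w ≠ 0) : ∃ z ∈ Wpar cs T, vec cs g (w * z) ≠ 0 := by
  obtain ⟨R, hR1, hR2, hR3⟩ := exists_right cs hh
  have h1 : vec cs (g * h) = (R : Module.End ℤ (W →₀ ℤ)) (vec cs g) := by
    rw [vec, vec, map_mul, Units.val_mul, Module.End.mul_apply, hR2, ← Module.End.mul_apply,
      ← Units.val_mul, rep_comm cs hR1, Units.val_mul, Module.End.mul_apply]
  by_contra hcon
  push Not at hcon
  apply hw
  rw [h1]
  refine (hR3 {v | ∀ z ∈ Wpar cs T, vec cs g (v * z) = 0} ?_ _ ?_).1 w hcon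
  · intro v hv i hi z hz
    rw [mul_assoc]
    exact hv _ (mul_mem (Subgroup.subset_closure ⟨i, hi, rfl⟩) hz)
  · intro v hv
    have := hv 1 (one_mem _)
    rwa [mul_one] at this

omit [MetricSpace X] [IsIsometricSMul W X] in
/-- the map is well defined on the complex -/
theorem retr_mul_le {T : Set B} {h : ArtinGroup M} (hh : h ∈ Apar M T) (g : ArtinGroup M) (y : X)
    (hy : ∀ i ∈ T, cs.simple i • y = y) : retr cs (g * h) y ⊆ retr cs g y := by
  rintro p ⟨w, hw, rfl⟩
  obtain ⟨z, hz, h1⟩ := support_right cs hh g w hw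
  exact ⟨w * z, h1, by rw [mul_smul, smul_of_mem cs hy hz]⟩

omit [MetricSpace X] [IsIsometricSMul W X] in
theorem retr_mul {T : Set B} {h : ArtinGroup M} (hh : h ∈ Apar M T) (g : ArtinGroup M) (y : X)
    (hy : ∀ i ∈ T, cs.simple i • y = y) : retr cs (g * h) y = retr cs g y := by
  apply Set.Subset.antisymm (retr_mul_le cs hh g y hy)
  have h1 := retr_mul_le cs (inv_mem hh) (g * h) y hy
  rwa [mul_inv_cancel_right] at h1

/-- paths: from the end to the start -/
theorem retr_path (c : List (X × ArtinGroup M)) (hc : IsPath cs c) (g : ArtinGroup M) (x y : X) :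
    (∀ p' ∈ retr cs (g * (c.map Prod.snd).prod) y, ∃ p ∈ retr cs g x, dist p p' ≤ pathLen x c y) ∧
    ∀ p ∈ retr cs g x, ∃ p' ∈ retr cs (g * (c.map Prod.snd).prod) y, dist p p' ≤ pathLen x c y := by
  induction c generalizing g x with
  | nil =>
    rw [List.map_nil, List.prod_nil, mul_one]
    constructor
    · rintro p' ⟨w, hw, rfl⟩
      exact ⟨w • x, ⟨w, hw, rfl⟩, by rw [dist_smul]; exact le_rfl⟩
    · rintro p ⟨w, hw, rfl⟩
      exact ⟨w • y, ⟨w, hw, rfl⟩, by rw [dist_smul]; exact le_rfl⟩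
  | cons q c ih =>
    have hq : q.2 ∈ Apar M {i | cs.simple i • q.1 = q.1} := hc q (by simp)
    have hc' : IsPath cs c := fun r hr => hc r (List.mem_cons_of_mem _ hr)
    have h0 : g * ((q :: c).map Prod.snd).prod = g * q.2 * (c.map Prod.snd).prod := by
      rw [List.map_cons, List.prod_cons, mul_assoc]
    have h1 : retr cs (g * q.2) q.1 = retr cs g q.1 := retr_mul cs hq g q.1 fun i hi => hi
    have h2 : pathLen x (q :: c) y = dist x q.1 + pathLen q.1 c y := rfl
    obtain ⟨ih1, ih2⟩ := ih hc' (g * q.2) q.1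
    rw [h0, h2]
    constructor
    · intro p' hp'
      obtain ⟨r, hr, hd⟩ := ih1 p' hp'
      rw [h1] at hr
      obtain ⟨w, hw, rfl⟩ := hr
      refine ⟨w • x, ⟨w, hw, rfl⟩, ?_⟩
      have h3 := dist_triangle (w • x) (w • q.1) p'
      rw [dist_smul] at h3
      linarith
    · rintro p ⟨w, hw, rfl⟩
      have hr : w • q.1 ∈ retr cs (g * q.2) q.1 := by
        rw [h1]
        exact ⟨w, hw, rfl⟩
      obtain ⟨p', hp', hd⟩ := ih2 _ hr
      refine ⟨p', hp', ?_⟩
      have h3 := dist_triangle (w • x) (w • q.1) p'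
      rw [dist_smul] at h3
      linarith

omit [MetricSpace X] [IsIsometricSMul W X] in
theorem mem_retr (l : List (B × ℤ)) (hl : ∀ p ∈ l, p.2 ≠ 0) (hr : cs.IsReduced (letters l)) (y : X) :
    cs.wordProd (letters l) • y ∈ retr cs (artinWord M l) y := by
  refine ⟨_, ?_, rfl⟩
  rw [(vec_lead cs l hr).1]
  apply mul_ne_zero (pow_ne_zero _ (by norm_num))
  apply List.prod_ne_zero
  intro hmem
  obtain ⟨p, hp, hp2⟩ := List.mem_map.1 hmem
  exact hl p hp hp2

end Pool.Agent.Lib.MP_f146a9_al
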