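import Pool.Agent.Lib.MP_f146a9_al.Geo

/-!
MP_f146a9_al. Uniqueness of the parabolic factor and of the exponents.
-/

namespace Pool.Agent.Lib.MP_f146a9_al

open CoxeterSystem Pool.Agent.Lib.MP_529e02_al

variable {B W : Type*} [Group W] {M : CoxeterMatrix B} (cs : CoxeterSystem M W)

/-- powers of the right unit -/
noncomputable def powR (i : B) (k : ℤ) : Module.End ℤ (W →₀ ℤ) := 1 - k • opR cs i

theorem powR_mul (i : B) (k k' : ℤ) : powR cs i k * powR cs i k' = powR cs i (k + k') := by
  unfold powR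
  simp only [sub_mul, mul_sub, smul_mul_assoc, mul_smul_comm, opR_sq, mul_one, one_mul, smul_zero,
    sub_zero, add_smul]
  abel

theorem powR_powR (i : B) (k k' : ℤ) (x : W →₀ ℤ) :
    powR cs i k (powR cs i k' x) = powR cs i (k + k') x := by
  rw [← powR_mul]
  rfl

theorem powR_zero (i : B) : powR cs i 0 = 1 := by simp [powR]

theorem rep_comm_opR (g : ArtinGroup M) (i : B) :
    ((rep cs g : (Module.End ℤ (W →₀ ℤ))ˣ) : Module.End ℤ (W →₀ ℤ)) * opR cs i =
      opR cs i * ((rep cs g : (Module.End ℤ (W →₀ ℤ))ˣ) : Module.End ℤ (W →₀ ℤ)) := by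
  have h1 := rep_comm cs (R := unitR cs i) (fun j => unitA_comm_unitR cs j i) g
  have h2 := congrArg (fun x : (Module.End ℤ (W →₀ ℤ))ˣ => (x : Module.End ℤ (W →₀ ℤ))) h1
  change ((rep cs g : (Module.End ℤ (W →₀ ℤ))ˣ) : Module.End ℤ (W →₀ ℤ)) * (1 - opR cs i) =
    (1 - opR cs i) * ((rep cs g : (Module.End ℤ (W →₀ ℤ))ˣ) : Module.End ℤ (W →₀ ℤ)) at h2
  rw [mul_sub, sub_mul, mul_one, one_mul] at h2
  exact sub_right_injective h2

theorem rep_comm_powR (g : ArtinGroup M) (i : B) (k : ℤ) :
    ((rep cs g : (Module.End ℤ (W →₀ ℤ))ˣ) : Module.End ℤ (W →₀ ℤ)) * powR cs i k =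
      powR cs i k * ((rep cs g : (Module.End ℤ (W →₀ ℤ))ˣ) : Module.End ℤ (W →₀ ℤ)) := by
  unfold powR
  rw [mul_sub, sub_mul, mul_one, one_mul, mul_smul_comm, rep_comm_opR, smul_mul_assoc]

theorem vec_concat (i : B) (k : ℤ) (l : List (B × ℤ)) :
    vec cs (artinWord M (l ++ [(i, k)])) = powR cs i k (vec cs (artinWord M l)) := by
  have h1 : ((rep cs (artinWord M [(i, k)]) : (Module.End ℤ (W →₀ ℤ))ˣ) : Module.End ℤ (W →₀ ℤ))
      (Finsupp.single 1 1) = powR cs i k (Finsupp.single 1 1) := by
    have h2 : artinWord M [(i, k)] = (PresentedGroup.of i : ArtinGroup M) ^ k := by simp [artinWord]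
    rw [h2, map_zpow, rep_of, unitA_zpow]
    change Finsupp.single 1 1 - k • opL cs i (Finsupp.single 1 1) =
      Finsupp.single 1 1 - k • opR cs i (Finsupp.single 1 1)
    rw [opL_single, opR_single, inv_one, mul_one, one_mul]
  rw [vec, artinWord_append, map_mul, Units.val_mul, Module.End.mul_apply, h1, ← Module.End.mul_apply,
    rep_comm_powR, Module.End.mul_apply]
  rfl

theorem powR_apply (i : B) (k : ℤ) (x : W →₀ ℤ) (v : W) :
    powR cs i k x v = x v - k * (eps cs i v⁻¹ * (x v - x (v * cs.simple i))) := by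
  change (x - k • opR cs i x) v = _
  rw [Finsupp.sub_apply, Finsupp.smul_apply, opR_apply, smul_eq_mul]

theorem letters_append (l l' : List (B × ℤ)) : letters (l ++ l') = letters l ++ letters l' := by
  simp [letters]

/-- the exponents are determined modulo the left parabolic subgroup -/
theorem exponents_of_vec {T : Set B} {h : ArtinGroup M} (hh : h ∈ Apar M T) {l l' : List (B × ℤ)}
    (hl : ∀ p ∈ l, p.2 ≠ 0) (hr : cs.IsReduced (letters l)) (hr' : cs.IsReduced (letters l'))
    (hmin : IsMinimal cs T ∅ (cs.wordProd (letters l)))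
    (hll : (letters l).map cs.simple = (letters l').map cs.simple)
    (hv : ((rep cs h : (Module.End ℤ (W →₀ ℤ))ˣ) : Module.End ℤ (W →₀ ℤ)) (vec cs (artinWord M l)) =
      vec cs (artinWord M l')) : l.map Prod.snd = l'.map Prod.snd := by
  induction l using List.reverseRecOn generalizing l' with
  | nil =>
    have : l' = [] := by simpa [letters] using hll
    rw [this]
  | append_singleton l p ih =>
    obtain ⟨i, k⟩ := p
    rcases List.eq_nil_or_concat l' with rfl | ⟨l₀, ⟨i', k'⟩, hl₀⟩
    · simp [letters] at hll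
    rw [List.concat_eq_append] at hl₀
    rw [hl₀] at hr' hll hv ⊢
    rw [letters_append, letters_append, List.map_append, List.map_append] at hll
    have hlast : (letters l).map cs.simple = (letters l₀).map cs.simple ∧
        cs.simple i = cs.simple i' := by
      have h1 := List.append_inj' hll (by simp [letters])
      refine ⟨h1.1, ?_⟩
      simpa [letters] using h1.2
    obtain ⟨hll', hi⟩ := hlast
    have hr1 : cs.IsReduced (letters l) := by
      have := hr.take (letters l).length
      rwa [letters_append, List.take_left] at this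
    have hr1' : cs.IsReduced (letters l₀) := by
      have := hr'.take (letters l₀).length
      rwa [letters_append, List.take_left] at this
    have hu : cs.wordProd (letters (l ++ [(i, k)])) = cs.wordProd (letters l) * cs.simple i := by
      rw [letters_append, wordProd_append]
      simp [letters]
    have hweq : cs.wordProd (letters l) = cs.wordProd (letters l₀) := by
      unfold wordProd
      rw [hll']
    have hlen : cs.length (cs.wordProd (letters l)) = l.length := by
      rw [hr1.eq]; simp [letters]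
    have hlen' : cs.length (cs.wordProd (letters l₀)) = l₀.length := by
      rw [hr1'.eq]; simp [letters]
    have hlenu : cs.length (cs.wordProd (letters l) * cs.simple i) = l.length + 1 := by
      rw [← hu, hr.eq]; simp [letters]
    have hop : powR cs i = powR cs i' := by
      unfold powR opR eps
      rw [hi]
    rw [vec_concat, vec_concat, ← hop, ← Module.End.mul_apply, rep_comm_powR, Module.End.mul_apply] at hv
    -- the equation between the shorter words
    have hv2 : powR cs i (k - k') (((rep cs h : (Module.End ℤ (W →₀ ℤ))ˣ) : Module.End ℤ (W →₀ ℤ))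
        (vec cs (artinWord M l))) = vec cs (artinWord M l₀) := by
      have h1 := congrArg (powR cs i (-k')) hv
      rw [powR_powR, powR_powR, neg_add_cancel, powR_zero] at h1
      have h2 : -k' + k = k - k' := by ring
      rw [h2] at h1
      exact h1
    have hzu : ∀ z ∈ Wpar cs T, l.length + 1 ≤ cs.length (z * (cs.wordProd (letters l) * cs.simple i)) := by
      intro z hz
      have := hmin z hz 1 (one_mem _)
      rw [mul_one, hu, hlenu] at this
      exact this
    have hx0 : ∀ y ∈ {y | ∃ z ∈ Wpar cs T, y = z * (cs.wordProd (letters l) * cs.simple i)},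
        vec cs (artinWord M l) y = 0 := by
      rintro y ⟨z, hz, rfl⟩
      have h1 := hzu z hz
      apply (vec_lead cs l hr1).2 _ (by omega)
      intro h2
      rw [h2] at h1
      omega
    have hy0 : ∀ y ∈ {y | ∃ z ∈ Wpar cs T, y = z * (cs.wordProd (letters l) * cs.simple i)},
        vec cs (artinWord M l₀) y = 0 := by
      rintro y ⟨z, hz, rfl⟩
      have h1 := hzu z hz
      rw [hweq] at hlen
      apply (vec_lead cs l₀ hr1').2 _ (by omega)
      intro h2
      rw [h2] at h1
      omega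
    have hinv : ∀ (u : W), ∀ y ∈ {y | ∃ z ∈ Wpar cs T, y = z * u}, ∀ j ∈ T,
        cs.simple j * y ∈ {y | ∃ z ∈ Wpar cs T, y = z * u} := by
      rintro u y ⟨z, hz, rfl⟩ j hj
      exact ⟨cs.simple j * z, mul_mem (Subgroup.subset_closure ⟨j, hj, rfl⟩) hz, by rw [mul_assoc]⟩
    have hf0 := (rep_vanish cs hh (hinv _) _ hx0).1
    have hkk : k = k' := by
      by_contra hne
      have hf1 : ∀ y ∈ {y | ∃ z ∈ Wpar cs T, y = z * cs.wordProd (letters l)},
          ((rep cs h : (Module.End ℤ (W →₀ ℤ))ˣ) : Module.End ℤ (W →₀ ℤ)) (vec cs (artinWord M l)) y = 0 := by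
        rintro y ⟨z, hz, rfl⟩
        have hmem : z * (cs.wordProd (letters l) * cs.simple i) ∈
            {y | ∃ z ∈ Wpar cs T, y = z * (cs.wordProd (letters l) * cs.simple i)} := ⟨z, hz, rfl⟩
        have h1 := congrArg (fun x => x (z * (cs.wordProd (letters l) * cs.simple i))) hv2
        simp only [powR_apply] at h1
        rw [hf0 _ hmem, hy0 _ hmem, ← mul_assoc z, simple_mul_simple_cancel_right] at h1
        have h2 : (k - k') * (eps cs i (z * cs.wordProd (letters l) * cs.simple i)⁻¹ *
            ((rep cs h : (Module.End ℤ (W →₀ ℤ))ˣ) : Module.End ℤ (W →₀ ℤ))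
              (vec cs (artinWord M l)) (z * cs.wordProd (letters l))) = 0 := by
          linear_combination h1
        rcases mul_eq_zero.1 h2 with h3 | h3
        · exact (hne (by omega)).elim
        · rcases mul_eq_zero.1 h3 with h4 | h4
          · have h5 := eps_mul_self cs i (z * cs.wordProd (letters l) * cs.simple i)⁻¹
            rw [h4] at h5
            simp at h5
          · exact h4
      have h6 := (rep_vanish cs hh (hinv _) _ hf1).2 (cs.wordProd (letters l)) ⟨1, one_mem _, by simp⟩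
      rw [← Module.End.mul_apply, ← Units.val_mul, inv_mul_cancel] at h6
      change vec cs (artinWord M l) (cs.wordProd (letters l)) = 0 at h6
      rw [(vec_lead cs l hr1).1] at h6
      have hprod : (l.map Prod.snd).prod ≠ 0 := by
        apply List.prod_ne_zero
        intro hmem
        obtain ⟨p, hp, hp2⟩ := List.mem_map.1 hmem
        exact hl p (List.mem_append_left _ hp) hp2
      exact mul_ne_zero (pow_ne_zero _ (by norm_num)) hprod h6
    subst hkk
    rw [sub_self, powR_zero] at hv2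
    have hmin' : IsMinimal cs T ∅ (cs.wordProd (letters l)) := by
      intro z₁ hz₁ z₂ hz₂
      rw [Wpar_empty cs hz₂, mul_one, hlen]
      have h1 := hzu z₁ hz₁
      rw [← mul_assoc] at h1
      rcases cs.length_mul_simple (z₁ * cs.wordProd (letters l)) i with h2 | h2 <;> omega
    have h7 := ih (fun p hp => hl p (List.mem_append_left _ hp)) hr1 hr1' hmin' hll' hv2
    rw [List.map_append, List.map_append, h7]
    rfl

/-- Along a fixed reduced word of a minimal coset representative, the parabolic factor and the exponents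
are determined by the product. -/
theorem parabolic_unique {T : Set B} {h : ArtinGroup M} (hh : h ∈ Apar M T) {l l' : List (B × ℤ)}
    (hl : ∀ p ∈ l, p.2 ≠ 0) (hr : cs.IsReduced (letters l))
    (hmin : IsMinimal cs T ∅ (cs.wordProd (letters l))) (hll : letters l = letters l')
    (hv : h * artinWord M l = artinWord M l') : h = 1 ∧ l = l' := by
  have h1 := exponents_of_vec cs hh hl hr (by rw [← hll]; exact hr) hmin (by rw [hll]) (by
    rw [← hv]
    simp only [vec, map_mul, Units.val_mul, Module.End.mul_apply])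
  have h2 : ∀ l : List (B × ℤ), l = (letters l).zip (l.map Prod.snd) := by
    intro l
    induction l with
    | nil => rfl
    | cons p l ih =>
      change p :: l = (p.1, p.2) :: (letters l).zip (l.map Prod.snd)
      rw [← ih]
  have h3 : l = l' := by rw [h2 l, h2 l', h1, hll]
  refine ⟨?_, h3⟩
  rw [← h3] at hv
  simpa using hv

/-- a basis vector is the image of `e₁` under a right operator, up to sign, and under a group element -/
theorem exists_lift (w : W) : ∃ g : ArtinGroup M,
    ((rep cs g : (Module.End ℤ (W →₀ ℤ))ˣ) : Module.End ℤ (W →₀ ℤ)) (Finsupp.single 1 1) =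
      ((-1 : ℤ) ^ cs.length w) • Finsupp.single w 1 := by
  have key : ∀ n : ℕ, ∀ w : W, cs.length w = n → ∃ g : ArtinGroup M,
      ((rep cs g : (Module.End ℤ (W →₀ ℤ))ˣ) : Module.End ℤ (W →₀ ℤ)) (Finsupp.single 1 1) =
        ((-1 : ℤ) ^ cs.length w) • Finsupp.single w 1 := by
    intro n
    induction n with
    | zero =>
      intro w hw
      rw [length_eq_zero_iff] at hw
      refine ⟨1, ?_⟩
      rw [hw, map_one, length_one, pow_zero, one_smul]
      rfl
    | succ n ih =>
      intro w hw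
      have hne : w ≠ 1 := by
        rintro rfl
        simp at hw
      obtain ⟨j, hj⟩ := cs.exists_leftDescent_of_ne_one hne
      rw [isLeftDescent_iff] at hj
      obtain ⟨g, hg⟩ := ih (cs.simple j * w) (by omega)
      refine ⟨PresentedGroup.of j * g, ?_⟩
      have h1 : eps cs j (cs.simple j * w) = 1 := by
        unfold eps
        rw [simple_mul_simple_cancel_left, if_neg (by omega)]
      rw [map_mul, Units.val_mul, Module.End.mul_apply, hg, map_smul, rep_of]
      change ((-1 : ℤ) ^ cs.length (cs.simple j * w)) • (Finsupp.single (cs.simple j * w) 1 -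
        opL cs j (Finsupp.single (cs.simple j * w) 1)) = _
      rw [opL_single, h1, one_smul, simple_mul_simple_cancel_left, sub_add_cancel_left, ← hj, pow_succ,
        smul_neg, mul_neg_one, neg_smul]
  exact key _ w rfl

/-- the sign functional -/
noncomputable def sgnF : (W →₀ ℤ) →ₗ[ℤ] ℤ := Finsupp.linearCombination ℤ fun w => (-1 : ℤ) ^ cs.length w

theorem sgnF_opL (i : B) (x : W →₀ ℤ) : sgnF cs (opL cs i x) = 0 := by
  have h1 : (sgnF cs) ∘ₗ (opL cs i) = 0 := by
    apply Finsupp.lhom_ext'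
    intro w
    apply LinearMap.ext_ring
    change sgnF cs (opL cs i (Finsupp.single w 1)) = 0
    rw [opL_single, map_smul, map_add, sgnF, Finsupp.linearCombination_single,
      Finsupp.linearCombination_single]
    rcases cs.length_simple_mul w i with h | h
    · rw [h, pow_succ]
      simp
    · rw [← h, pow_succ]
      simp
  exact congrArg (fun f => f x) h1

theorem sgnF_rep (g : ArtinGroup M) (x : W →₀ ℤ) :
    sgnF cs (((rep cs g : (Module.End ℤ (W →₀ ℤ))ˣ) : Module.End ℤ (W →₀ ℤ)) x) = sgnF cs x := by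
  have hg : g ∈ Subgroup.closure (Set.range (PresentedGroup.of : B → ArtinGroup M)) := by
    rw [PresentedGroup.closure_range_of]
    exact Subgroup.mem_top g
  induction hg using Subgroup.closure_induction generalizing x with
  | mem g hg =>
    obtain ⟨i, rfl⟩ := hg
    rw [rep_of]
    change sgnF cs (x - opL cs i x) = _
    rw [map_sub, sgnF_opL, sub_zero]
  | one =>
    rw [map_one]
    rfl
  | mul a b _ _ ha hb => rw [map_mul, Units.val_mul, Module.End.mul_apply, ha, hb]
  | inv a _ ha =>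
    have h1 := ha (((rep cs a⁻¹ : (Module.End ℤ (W →₀ ℤ))ˣ) : Module.End ℤ (W →₀ ℤ)) x)
    rw [← Module.End.mul_apply, ← Units.val_mul, ← map_mul, mul_inv_cancel, map_one] at h1
    exact h1.symm

/-- the exponents are determined modulo parabolic subgroups on both sides -/
theorem exponents_two {T₁ T₂ : Set B} {h₁ h₂ : ArtinGroup M} (hh₁ : h₁ ∈ Apar M T₁) (hh₂ : h₂ ∈ Apar M T₂)
    {l l' : List (B × ℤ)} (hl : ∀ p ∈ l, p.2 ≠ 0) (hl' : ∀ p ∈ l', p.2 ≠ 0)
    (hr : cs.IsReduced (letters l)) (hr' : cs.IsReduced (letters l'))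
    (hmin : IsMinimal cs T₁ T₂ (cs.wordProd (letters l)))
    (htriv : ∀ z₁ ∈ Wpar cs T₁, ∀ z₂ ∈ Wpar cs T₂,
      z₁ * cs.wordProd (letters l) = cs.wordProd (letters l) * z₂ → z₁ = 1)
    (hll : (letters l).map cs.simple = (letters l').map cs.simple)
    (h : h₁ * artinWord M l = artinWord M l' * h₂) : l.map Prod.snd = l'.map Prod.snd := by
  obtain ⟨R, hR1, hR2, hR3⟩ := exists_right cs hh₂
  have hvec : ((rep cs h₁ : (Module.End ℤ (W →₀ ℤ))ˣ) : Module.End ℤ (W →₀ ℤ)) (vec cs (artinWord M l)) =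
      (R : Module.End ℤ (W →₀ ℤ)) (vec cs (artinWord M l')) := by
    have h1 := congrArg (fun g => ((rep cs g : (Module.End ℤ (W →₀ ℤ))ˣ) : Module.End ℤ (W →₀ ℤ))
      (Finsupp.single 1 1)) h
    simp only [map_mul, Units.val_mul, Module.End.mul_apply] at h1
    rw [hR2, ← Module.End.mul_apply, ← Module.End.mul_apply, ← Units.val_mul, ← Units.val_mul,
      rep_comm cs hR1] at h1
    rw [vec, vec, ← Module.End.mul_apply, ← Module.End.mul_apply, ← Units.val_mul, ← Units.val_mul]
    exact h1
  have hweq : cs.wordProd (letters l) = cs.wordProd (letters l') := by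
    unfold wordProd
    rw [hll]
  set u := cs.wordProd (letters l) with hu
  obtain ⟨h1, h2⟩ := vec_lead cs l hr
  obtain ⟨h1', h2'⟩ := vec_lead cs l' hr'
  have hlen : cs.length u = l.length := by
    rw [hu, hr.eq]; simp [letters]
  have hlen' : cs.length u = l'.length := by
    rw [hweq, hr'.eq]; simp [letters]
  set x := vec cs (artinWord M l) with hx
  set y := vec cs (artinWord M l') with hy
  have hne : ∀ l : List (B × ℤ), (∀ p ∈ l, p.2 ≠ 0) →
      (-1) ^ l.length * (l.map Prod.snd).prod ≠ 0 := by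
    intro l hl
    apply mul_ne_zero (pow_ne_zero _ (by norm_num))
    apply List.prod_ne_zero
    intro hmem
    obtain ⟨p, hp, hp2⟩ := List.mem_map.1 hmem
    exact hl p hp hp2
  -- the double coset
  set D : Set W := {v | ∃ z₁ ∈ Wpar cs T₁, ∃ z₂ ∈ Wpar cs T₂, v = z₁ * u * z₂} with hD
  have hDl : ∀ v ∈ D, ∀ i ∈ T₁, cs.simple i * v ∈ D := by
    rintro v ⟨z₁, hz₁, z₂, hz₂, rfl⟩ i hi
    exact ⟨cs.simple i * z₁, mul_mem (Subgroup.subset_closure ⟨i, hi, rfl⟩) hz₁, z₂, hz₂, by
      simp only [mul_assoc]⟩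
  have hDr : ∀ v ∈ D, ∀ i ∈ T₂, v * cs.simple i ∈ D := by
    rintro v ⟨z₁, hz₁, z₂, hz₂, rfl⟩ i hi
    exact ⟨z₁, hz₁, z₂ * cs.simple i, mul_mem hz₂ (Subgroup.subset_closure ⟨i, hi, rfl⟩), by
      simp only [mul_assoc]⟩
  have hxD : ∀ v ∈ D, (x - x u • Finsupp.single u 1 : W →₀ ℤ) v = 0 := by
    rintro v ⟨z₁, hz₁, z₂, hz₂, rfl⟩
    by_cases hv : z₁ * u * z₂ = u
    · rw [hv]
      simp
    · have h3 := hmin z₁ hz₁ z₂ hz₂
      have h4 : x (z₁ * u * z₂) = 0 := h2 _ (by omega) hv
      rw [Finsupp.sub_apply, h4, Finsupp.smul_apply, Finsupp.single_eq_of_ne hv]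
      simp
  have hyD : ∀ v ∈ D, (y - y u • Finsupp.single u 1 : W →₀ ℤ) v = 0 := by
    rintro v ⟨z₁, hz₁, z₂, hz₂, rfl⟩
    by_cases hv : z₁ * u * z₂ = u
    · rw [hv]
      simp
    · have h3 := hmin z₁ hz₁ z₂ hz₂
      have h4 : y (z₁ * u * z₂) = 0 := h2' _ (by omega) (by rw [← hweq]; exact hv)
      rw [Finsupp.sub_apply, h4, Finsupp.smul_apply, Finsupp.single_eq_of_ne hv]
      simp
  have hyu : y u ≠ 0 := by
    rw [hweq, h1']
    exact hne l' hl'
  have hX := (rep_vanish cs hh₁ hDl _ hxD).1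
  have hY := (hR3 D hDr _ hyD).1
  -- support of `R e_u`
  have hS2 : ∀ v, v ∉ {v | ∃ z₂ ∈ Wpar cs T₂, v = u * z₂} →
      (R : Module.End ℤ (W →₀ ℤ)) (Finsupp.single u 1) v = 0 := by
    intro v hv
    refine (hR3 {v | v ∉ {v | ∃ z₂ ∈ Wpar cs T₂, v = u * z₂}} ?_ (Finsupp.single u 1) ?_).1 v hv
    · rintro v hv i hi ⟨z₂, hz₂, h3⟩
      apply hv
      refine ⟨z₂ * cs.simple i, mul_mem hz₂ (Subgroup.subset_closure ⟨i, hi, rfl⟩), ?_⟩
      rw [← mul_assoc, ← h3, simple_mul_simple_cancel_right]
    · intro v hv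
      apply Finsupp.single_eq_of_ne
      rintro rfl
      exact hv ⟨1, one_mem _, by simp⟩
  have hS1 : ∀ v, v ∉ {v | ∃ z₁ ∈ Wpar cs T₁, v = z₁ * u} →
      ((rep cs h₁ : (Module.End ℤ (W →₀ ℤ))ˣ) : Module.End ℤ (W →₀ ℤ)) (Finsupp.single u 1) v = 0 := by
    intro v hv
    refine (rep_vanish cs hh₁ (S := {v | v ∉ {v | ∃ z₁ ∈ Wpar cs T₁, v = z₁ * u}}) ?_
      (Finsupp.single u 1) ?_).1 v hv
    · rintro v hv i hi ⟨z₁, hz₁, h3⟩
      apply hv
      refine ⟨cs.simple i * z₁, mul_mem (Subgroup.subset_closure ⟨i, hi, rfl⟩) hz₁, ?_⟩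
      rw [mul_assoc, ← h3, simple_mul_simple_cancel_left]
    · intro v hv
      apply Finsupp.single_eq_of_ne
      rintro rfl
      exact hv ⟨1, one_mem _, by simp⟩
  have hRu : ∀ v, v ≠ u → (R : Module.End ℤ (W →₀ ℤ)) (Finsupp.single u 1) v = 0 := by
    intro v hv
    by_cases hv2 : v ∈ {v | ∃ z₂ ∈ Wpar cs T₂, v = u * z₂}
    · obtain ⟨z₂, hz₂, rfl⟩ := hv2
      have hmem : u * z₂ ∈ D := ⟨1, one_mem _, z₂, hz₂, by simp⟩
      have h3 : ((rep cs h₁ : (Module.End ℤ (W →₀ ℤ))ˣ) : Module.End ℤ (W →₀ ℤ))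
          (Finsupp.single u 1) (u * z₂) = 0 := by
        apply hS1
        rintro ⟨z₁, hz₁, h4⟩
        have h5 := htriv z₁ hz₁ z₂ hz₂ h4.symm
        rw [h5, one_mul] at h4
        exact hv h4
      have h4 := hX _ hmem
      have h5 := hY _ hmem
      rw [map_sub, map_smul, Finsupp.sub_apply, Finsupp.smul_apply, h3, smul_zero, sub_zero] at h4
      rw [map_sub, map_smul, Finsupp.sub_apply, Finsupp.smul_apply, ← hvec, h4, zero_sub, neg_eq_zero,
        smul_eq_mul] at h5
      exact (mul_eq_zero.1 h5).resolve_left hyu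
    · exact hS2 v hv2
  -- `R e₁ = e₁`
  have hRe : (R : Module.End ℤ (W →₀ ℤ)) (Finsupp.single u 1) =
      ((R : Module.End ℤ (W →₀ ℤ)) (Finsupp.single u 1) u) • Finsupp.single u 1 := by
    ext v
    by_cases hv : v = u
    · rw [hv]
      simp
    · rw [hRu v hv, Finsupp.smul_apply, Finsupp.single_eq_of_ne hv]
      simp
  set b := (R : Module.End ℤ (W →₀ ℤ)) (Finsupp.single u 1) u with hb
  have hcomm : ∀ (g : ArtinGroup M) (v : W →₀ ℤ), (R : Module.End ℤ (W →₀ ℤ))
      (((rep cs g : (Module.End ℤ (W →₀ ℤ))ˣ) : Module.End ℤ (W →₀ ℤ)) v) =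
        ((rep cs g : (Module.End ℤ (W →₀ ℤ))ˣ) : Module.End ℤ (W →₀ ℤ))
          ((R : Module.End ℤ (W →₀ ℤ)) v) := by
    intro g v
    rw [← Module.End.mul_apply, ← Module.End.mul_apply, ← Units.val_mul, ← Units.val_mul,
      rep_comm cs hR1]
  have hRe1 : (R : Module.End ℤ (W →₀ ℤ)) (Finsupp.single 1 1) = b • Finsupp.single 1 1 := by
    obtain ⟨g, hg⟩ := exists_lift cs u
    have h3 := hcomm g (Finsupp.single 1 1)
    rw [hg, map_smul, hRe, smul_comm, ← hg, ← map_smul] at h3
    have h4 := congrArg (fun v => (((rep cs g)⁻¹ : (Module.End ℤ (W →₀ ℤ))ˣ) :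
      Module.End ℤ (W →₀ ℤ)) v) h3
    simp only [← Module.End.mul_apply, ← Units.val_mul, inv_mul_cancel_left, inv_mul_cancel] at h4
    exact h4.symm
  have hb1 : b = 1 := by
    have h3 := sgnF_rep cs h₂ (Finsupp.single 1 1)
    rw [hR2, hRe1, map_smul, sgnF, Finsupp.linearCombination_single] at h3
    simpa using h3
  rw [hb1, one_smul] at hRe1
  have hRy : (R : Module.End ℤ (W →₀ ℤ)) y = y := by
    rw [hy, vec, hcomm, hRe1]
  rw [hRy] at hvec
  refine exponents_of_vec cs hh₁ hl hr hr' ?_ hll hvec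
  intro z₁ hz₁ z₂ hz₂
  rw [Wpar_empty cs hz₂]
  exact hmin z₁ hz₁ 1 (one_mem _)

end Pool.Agent.Lib.MP_f146a9_al
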