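import Pool.Agent.Lib.MP_f146a9_al.Right

/-!
MP_f146a9_al. Uniqueness of transversal geodesics between interior points.
-/

namespace Pool.Agent.Lib.MP_f146a9_al

open CoxeterSystem Pool.Agent.Lib.MP_529e02_al

variable {B W : Type*} [Group W] {M : CoxeterMatrix B} (cs : CoxeterSystem M W)

variable {V : Type*} [NormedAddCommGroup V] [InnerProductSpace ℝ V]

theorem map_simple_of_leftInvSeq {ω ω' : List B} (h : cs.leftInvSeq ω = cs.leftInvSeq ω') :
    ω.map cs.simple = ω'.map cs.simple := by
  induction ω generalizing ω' with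
  | nil =>
    have h1 := congrArg List.length h
    rw [length_leftInvSeq, length_leftInvSeq] at h1
    rw [List.eq_nil_of_length_eq_zero h1.symm]
  | cons i ω ih =>
    cases ω' with
    | nil =>
      rw [leftInvSeq] at h
      exact (List.cons_ne_nil _ _ h).elim
    | cons i' ω' =>
      rw [leftInvSeq, leftInvSeq, List.cons.injEq] at h
      obtain ⟨h1, h2⟩ := h
      rw [← h1] at h2
      have h3 := List.map_injective_iff.2 (MulAut.conj (cs.simple i)).injective h2
      rw [List.map_cons, List.map_cons, h1, ih h3]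

theorem leftInvSeq_eq_ofFn (ω : List B) : cs.leftInvSeq ω = List.ofFn (wall cs ω) := by
  apply List.ext_getElem
  · simp
  · intro n h1 h2
    rw [List.getElem_ofFn]
    exact leftInvSeq_getElem_eq_wall cs ω ⟨n, by rwa [length_leftInvSeq] at h1⟩

/-- Two transversal geodesics shorter than `π` with the same end points, which cross one face at a time, are
equal up to an element which fixes both end points. -/
theorem unique {ρ : W →* (V ≃ₗᵢ[ℝ] V)} {C : Set V} (hC : IsChamber ρ C) {T₁ T₂ : Set B}
    (a b : GeodesicArc cs ρ C T₁ T₂) (ha : a.len < Real.pi)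
    (hb : b.len < Real.pi) (hx : a.x = b.x) (he : a.e = b.e) (hat : StrictMono a.time)
    (hbt : StrictMono b.time) {h₁ h₂ : ArtinGroup M} (hh₁ : h₁ ∈ Apar M T₁) (hh₂ : h₂ ∈ Apar M T₂)
    (h : h₁ * artinWord M a.cross = artinWord M b.cross * h₂) :
    a.len = b.len ∧ a.y = b.y ∧
      (letters a.cross).map cs.simple = (letters b.cross).map cs.simple ∧
      a.cross.map Prod.snd = b.cross.map Prod.snd ∧ List.ofFn a.time = List.ofFn b.time := by
  classical
  obtain ⟨h1, h4, z₂, hz₂, h3⟩ := bigon cs hC a b ha hb hx he hh₁ hh₂ h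
  have hia := a.wall_inj_of_lt hC ha
  have hib := b.wall_inj_of_lt hC hb
  have hda := nodup_of_wall_inj cs hia
  have hdb := nodup_of_wall_inj cs hib
  -- the same walls
  have hmem : ∀ t, t ∈ cs.leftInvSeq (letters a.cross) ↔ t ∈ cs.leftInvSeq (letters b.cross) := by
    have key : ∀ ω : List B, (cs.leftInvSeq ω).Nodup → ∀ t, t ∈ cs.leftInvSeq ω ↔
        side cs (cs.wordProd ω) t = 1 := by
      intro ω hω t
      rw [side_word]
      constructor
      · intro ht
        rw [List.count_eq_one_of_mem hω ht]
        simp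
      · intro ht
        by_contra hcon
        rw [List.count_eq_zero_of_not_mem hcon] at ht
        simp at ht
    intro t
    constructor
    · intro ht
      have ht' := ht
      rw [leftInvSeq_eq_ofFn] at ht'
      obtain ⟨i, hi⟩ := (List.mem_ofFn' _ _).1 ht'
      have h5 : (cs.wordProd (letters b.cross))⁻¹ * t * cs.wordProd (letters b.cross) ∉ Wpar cs T₂ := by
        intro hmem
        apply a.wall_not_end hC i (by linarith [(a.time_mem i).1])
        rw [hi, h3]
        have : (cs.wordProd (letters b.cross) * z₂)⁻¹ * t * (cs.wordProd (letters b.cross) * z₂) =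
            z₂⁻¹ * ((cs.wordProd (letters b.cross))⁻¹ * t * cs.wordProd (letters b.cross)) * z₂ := by group
        rw [this]
        exact mul_mem (mul_mem (inv_mem hz₂) hmem) hz₂
      rw [key _ hda, h3, side_mul, side_par cs hz₂ _ h5, add_zero] at ht
      exact (key _ hdb t).2 ht
    · intro ht
      have ht' := ht
      rw [leftInvSeq_eq_ofFn] at ht'
      obtain ⟨i, hi⟩ := (List.mem_ofFn' _ _).1 ht'
      have h5 := b.wall_not_end hC i (by linarith [(b.time_mem i).1])
      rw [hi] at h5
      rw [key _ hdb] at ht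
      rw [key _ hda, h3, side_mul, side_par cs hz₂ _ h5, add_zero]
      exact ht
  -- the same times
  have htime : ∀ i j, wall cs (letters a.cross) i = wall cs (letters b.cross) j →
      a.time i = b.time j := by
    intro i j hij
    have hi := a.time_mem i
    have hj := b.time_mem j
    have hbw := b.on_wall j
    rw [← hij, ← hx, ← h4] at hbw
    rcases lt_trichotomy (a.time i) (b.time j) with hlt | heq | hlt
    · exact (a.transverse hC i (fix_of_fix
        (f := ((ρ (wall cs (letters a.cross) i)).toLinearEquiv : V →ₗ[ℝ] V))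
        hlt (by linarith) (a.on_wall i) hbw)).elim
    · exact heq
    · exact (a.transverse hC i (fix_of_fix
        (f := ((ρ (wall cs (letters a.cross) i)).toLinearEquiv : V →ₗ[ℝ] V))
        hlt (by linarith) hbw (a.on_wall i))).elim
  -- the time of a wall
  set τ : W → ℝ := fun t => if ht : ∃ i, wall cs (letters a.cross) i = t then a.time ht.choose else 0
    with hτ
  have hτa : ∀ i, τ (wall cs (letters a.cross) i) = a.time i := by
    intro i
    have hex : ∃ i', wall cs (letters a.cross) i' = wall cs (letters a.cross) i := ⟨i, rfl⟩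
    rw [hτ]
    simp only [dif_pos hex]
    rw [hia hex.choose_spec]
  have hτb : ∀ j, τ (wall cs (letters b.cross) j) = b.time j := by
    intro j
    have hj : wall cs (letters b.cross) j ∈ cs.leftInvSeq (letters a.cross) := by
      rw [hmem, leftInvSeq_eq_ofFn]
      exact (List.mem_ofFn' _ _).2 ⟨j, rfl⟩
    rw [leftInvSeq_eq_ofFn] at hj
    obtain ⟨i, hi⟩ := (List.mem_ofFn' _ _).1 hj
    rw [← hi, hτa]
    exact htime i j hi
  have hsort : ∀ {n : ℕ} (f : Fin n → W) (t : Fin n → ℝ), StrictMono t → (∀ i, τ (f i) = t i) →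
      (List.ofFn f).Pairwise fun x y => τ x < τ y := by
    intro n f t ht hf
    rw [List.pairwise_ofFn]
    intro i j hij
    rw [hf, hf]
    exact ht hij
  have hperm : (cs.leftInvSeq (letters a.cross)).Perm (cs.leftInvSeq (letters b.cross)) :=
    (List.perm_ext_iff_of_nodup hda hdb).2 hmem
  have hseq : cs.leftInvSeq (letters a.cross) = cs.leftInvSeq (letters b.cross) := by
    apply List.Perm.eq_of_pairwise (le := fun x y => τ x < τ y) _ _ _ hperm
    · intro x y _ _ hxy hyx
      exact (lt_asymm hxy hyx).elim
    · rw [leftInvSeq_eq_ofFn]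
      exact hsort _ _ hat hτa
    · rw [leftInvSeq_eq_ofFn]
      exact hsort _ _ hbt hτb
  have hsimple := map_simple_of_leftInvSeq cs hseq
  refine ⟨h1, h4, hsimple, ?_, ?_⟩
  · exact exponents_two cs hh₁ hh₂ a.exp_ne b.exp_ne (a.reduced_of_lt hC ha).1 (b.reduced_of_lt hC hb).1
      (a.reduced_of_lt hC ha).2 (a.triv hC ha) hsimple h
  · have h5 := congrArg (List.map τ) hseq
    rw [leftInvSeq_eq_ofFn, leftInvSeq_eq_ofFn, List.map_ofFn, List.map_ofFn] at h5
    have h6 : (τ ∘ wall cs (letters a.cross)) = a.time := funext hτa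
    have h7 : (τ ∘ wall cs (letters b.cross)) = b.time := funext hτb
    rw [h6, h7] at h5
    exact h5

end Pool.Agent.Lib.MP_f146a9_al
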